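import Pool.Agent.Q196.NP.Chain
import Pool.Agent.Q235.NL.Bij

/-!
# Paths of homogeneous local diffeomorphisms starting at the identity consist of bijections
-/

set_option autoImplicit false

open Set Filter Topology Metric Function
open scoped ContDiff

noncomputable section

namespace Pool.Agent.Q196.NP

variable {W : Type*} [NormedAddCommGroup W] [InnerProductSpace ℝ W] [FiniteDimensional ℝ W]

omit [FiniteDimensional ℝ W] in
lemma HD.zero {G : Set (W ≃ₗᵢ[ℝ] W)} {f : W → W} (h : HD G f) : f 0 = 0 := by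
  have h0 := h.hom 0 le_rfl 0
  rwa [zero_smul, zero_smul] at h0

omit [FiniteDimensional ℝ W] in
lemma HD.ne_zero {G : Set (W ≃ₗᵢ[ℝ] W)} {f : W → W} (h : HD G f) {v : W} (hv : v ≠ 0) :
    f v ≠ 0 := by
  obtain ⟨A, hA⟩ := h.der v hv
  intro h0
  have h1 : HasDerivAt (fun r : ℝ => v + r • v) v 0 := by
    have := ((hasDerivAt_id (0:ℝ)).smul_const v).const_add v
    simpa using this
  have hA' : HasFDerivAt f (A : W →L[ℝ] W) (v + (0:ℝ) • v) := by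
    rw [zero_smul, add_zero]; exact hA
  have h2 := hA'.comp_hasDerivAt (0:ℝ) h1
  have h3 : HasDerivAt (fun _ : ℝ => (0 : W)) 0 0 := hasDerivAt_const _ _
  have h4 : (f ∘ fun r : ℝ => v + r • v) =ᶠ[𝓝 0] fun _ => (0 : W) := by
    filter_upwards [Ioi_mem_nhds (show (-1:ℝ) < 0 by norm_num)] with r hr
    have hr' : (-1:ℝ) < r := hr
    show f (v + r • v) = 0
    have : v + r • v = (1 + r) • v := by rw [add_smul, one_smul]
    rw [this, h.hom _ (by linarith), h0, smul_zero]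
  have h5 := (h3.congr_of_eventuallyEq h4).unique h2
  have h6 : A v = 0 := h5.symm
  exact hv ((map_eq_zero_iff A A.injective).1 h6)

omit [FiniteDimensional ℝ W] in
lemma unit_of {v : W} (hv : v ≠ 0) : ‖‖v‖⁻¹ • v‖ = 1 := by
  rw [norm_smul, norm_inv, norm_norm, inv_mul_cancel₀ (norm_ne_zero_iff.2 hv)]

/-- inverse function theorem for the total map -/
theorem total_local [CompleteSpace W] {Φ : ℝ → W → W}
    (hs : ContDiffOn ℝ ∞ (uncurry Φ) (univ ×ˢ {0}ᶜ)) {t : ℝ} {v : W} (hv : v ≠ 0)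
    (hd : ∃ A : W ≃L[ℝ] W, HasFDerivAt (Φ t) (A : W →L[ℝ] W) v) :
    ∃ e : OpenPartialHomeomorph (ℝ × W) (ℝ × W), (t, v) ∈ e.source ∧
      ∀ p, e p = (p.1, Φ p.1 p.2) := by
  obtain ⟨A, hA⟩ := hd
  have hnh : (univ ×ˢ {0}ᶜ : Set (ℝ × W)) ∈ 𝓝 (t, v) :=
    (isOpen_univ.prod isOpen_compl_singleton).mem_nhds ⟨mem_univ _, hv⟩
  have hc : ContDiffAt ℝ ∞ (fun p : ℝ × W => (p.1, uncurry Φ p)) (t, v) :=
    contDiffAt_fst.prodMk (hs.contDiffAt hnh)
  have hΦd : HasFDerivAt (uncurry Φ) (fderiv ℝ (uncurry Φ) (t, v)) (t, v) :=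
    ((hs.contDiffAt hnh).differentiableAt (by simp)).hasFDerivAt
  set D := fderiv ℝ (uncurry Φ) (t, v) with hD
  have hDA : ∀ w : W, D (0, w) = A w := by
    intro w
    have h1 : HasFDerivAt (fun x : W => (t, x)) (ContinuousLinearMap.inr ℝ ℝ W) v :=
      hasFDerivAt_prodMk_right t v
    have h2 : HasFDerivAt (fun x : W => uncurry Φ (t, x)) (D.comp (ContinuousLinearMap.inr ℝ ℝ W)) v :=
      HasFDerivAt.comp (f := fun x : W => (t, x)) v hΦd h1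
    have h3 := h2.unique hA
    have h4 := DFunLike.congr_fun h3 w
    simpa using h4
  let D0 : ℝ × W →L[ℝ] ℝ × W := (ContinuousLinearMap.fst ℝ ℝ W).prod D
  have hD0 : HasFDerivAt (fun p : ℝ × W => (p.1, uncurry Φ p)) D0 (t, v) :=
    hasFDerivAt_fst.prodMk hΦd
  have hinj : Injective D0 := by
    rw [injective_iff_map_eq_zero]
    rintro ⟨a, w⟩ h
    have h1 : a = 0 := congrArg Prod.fst h
    have h2 : D (a, w) = 0 := congrArg Prod.snd h
    rw [h1, hDA] at h2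
    have h3 : w = 0 := (map_eq_zero_iff A A.injective).1 h2
    rw [h1, h3]
    rfl
  have hsurj : Surjective D0 := by
    rintro ⟨a, w⟩
    obtain ⟨u, hu⟩ := A.surjective (w - D (a, 0))
    refine ⟨(a, u), ?_⟩
    have h1 : D (a, u) = w := by
      have h2 : ((a, u) : ℝ × W) = (a, 0) + (0, u) := by simp
      rw [h2, map_add, hDA, hu]
      abel
    exact Prod.ext rfl h1
  let E0 : (ℝ × W) ≃L[ℝ] (ℝ × W) := ContinuousLinearEquiv.ofBijective D0
    (LinearMap.ker_eq_bot.2 hinj) (LinearMap.range_eq_top.2 hsurj)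
  have hE0 : (E0 : ℝ × W →L[ℝ] ℝ × W) = D0 := ContinuousLinearMap.ext fun x => rfl
  have hst : HasStrictFDerivAt (fun p : ℝ × W => (p.1, uncurry Φ p)) (E0 : ℝ × W →L[ℝ] ℝ × W)
      (t, v) := by
    rw [hE0]
    have h1 := hc.hasStrictFDerivAt (by simp)
    rwa [hD0.fderiv] at h1
  refine ⟨hst.toOpenPartialHomeomorph _, hst.mem_toOpenPartialHomeomorph_source, fun p => rfl⟩

/-- the compact set `[0,1] × S` -/
def KK (W : Type*) [NormedAddCommGroup W] : Set (ℝ × W) := Icc (0:ℝ) 1 ×ˢ sphere (0:W) 1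

/-- the map of directions -/
def dirMap {G : Set (W ≃ₗᵢ[ℝ] W)} (Φ : ℝ → W → W) (hH : ∀ t, HD G (Φ t)) (x : KK W) : KK W :=
  ⟨(x.1.1, ‖Φ x.1.1 x.1.2‖⁻¹ • Φ x.1.1 x.1.2), by
    obtain ⟨⟨t, v⟩, ⟨ht, hv⟩⟩ := x
    refine ⟨ht, ?_⟩
    have hv1 : ‖v‖ = 1 := by simpa using hv
    rw [mem_sphere_zero_iff_norm]
    exact unit_of ((hH t).ne_zero (norm_ne_zero_iff.1 (by rw [hv1]; norm_num)))⟩

theorem dirMap_bij {G : Set (W ≃ₗᵢ[ℝ] W)} {Φ : ℝ → W → W} (hH : ∀ t, HD G (Φ t))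
    (hs : ContDiffOn ℝ ∞ (uncurry Φ) (univ ×ˢ {0}ᶜ)) (h0 : Φ 0 = fun v => v)
    (hrank : 1 < Module.rank ℝ W) : Bijective (dirMap Φ hH) := by
  have hcomp : IsCompact (KK W) := isCompact_Icc.prod (isCompact_sphere _ _)
  have hconn : IsConnected (KK W) :=
    (isConnected_Icc zero_le_one).prod (isConnected_sphere hrank 0 zero_le_one)
  haveI : CompactSpace (KK W) := isCompact_iff_compactSpace.1 hcomp
  haveI : ConnectedSpace (KK W) := Subtype.connectedSpace hconn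
  have hone : ∀ x : KK W, ‖x.1.2‖ = 1 := fun x => by simpa using x.2.2
  have hne : ∀ x : KK W, x.1.2 ≠ 0 := fun x => norm_ne_zero_iff.1 (by rw [hone]; norm_num)
  have hopen : IsOpen (univ ×ˢ {0}ᶜ : Set (ℝ × W)) := isOpen_univ.prod isOpen_compl_singleton
  have hcat : ∀ x : KK W, ContinuousAt (uncurry Φ) x.1 := fun x =>
    (hs.continuousOn).continuousAt (hopen.mem_nhds ⟨mem_univ _, hne x⟩)
  have hc : Continuous (dirMap Φ hH) := by
    rw [continuous_iff_continuousAt]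
    intro x
    rw [Topology.IsInducing.subtypeVal.continuousAt_iff]
    have h1 : ContinuousAt (fun x : KK W => Φ x.1.1 x.1.2) x :=
      ContinuousAt.comp (f := Subtype.val) (g := uncurry Φ) (hcat x)
        continuous_subtype_val.continuousAt
    have h2 : ContinuousAt (fun x : KK W => x.1.1) x :=
      (continuous_fst.comp continuous_subtype_val).continuousAt
    exact h2.prodMk ((h1.norm.inv₀ (norm_ne_zero_iff.2 ((hH _).ne_zero (hne x)))).smul h1)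
  refine Pool.Agent.Q235.NL.bij_of_local hc ?_ ?_
    (y := dirMap Φ hH ⟨(0, (hconn.nonempty.some).2), ⟨⟨le_rfl, zero_le_one⟩,
      hconn.nonempty.some_mem.2⟩⟩) rfl ?_
  · -- open
    intro x s hsx
    obtain ⟨S, hS, hSs⟩ := mem_nhds_subtype _ _ _ |>.1 hsx
    obtain ⟨e, hes, he⟩ := total_local hs (hne x) ((hH x.1.1).der _ (hne x))
    set c0 : ℝ := ‖Φ x.1.1 x.1.2‖ with hc0
    have hc0p : 0 < c0 := norm_pos_iff.2 ((hH _).ne_zero (hne x))
    have hy0 : ((dirMap Φ hH x).1.1, c0 • (dirMap Φ hH x).1.2) = e x.1 := by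
      rw [he]
      show (x.1.1, c0 • (c0⁻¹ • Φ x.1.1 x.1.2)) = (x.1.1, Φ x.1.1 x.1.2)
      rw [smul_smul, mul_inv_cancel₀ hc0p.ne', one_smul]
    have c1 : ContinuousAt (fun p : ℝ × W => e.symm (p.1, c0 • p.2)) (dirMap Φ hH x).1 := by
      have h1 : ContinuousAt (fun p : ℝ × W => (p.1, c0 • p.2)) (dirMap Φ hH x).1 := by fun_prop
      refine ContinuousAt.comp (f := fun p : ℝ × W => (p.1, c0 • p.2)) (g := e.symm) ?_ h1
      show ContinuousAt e.symm ((dirMap Φ hH x).1.1, c0 • (dirMap Φ hH x).1.2)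
      rw [hy0]
      exact e.continuousAt_symm (e.map_source hes)
    have v1 : e.symm ((dirMap Φ hH x).1.1, c0 • (dirMap Φ hH x).1.2) = x.1 := by
      rw [hy0]
      exact e.left_inv hes
    have hw0 : (e.symm ((dirMap Φ hH x).1.1, c0 • (dirMap Φ hH x).1.2)).2 ≠ 0 := by
      rw [v1]; exact hne x
    obtain ⟨F2, hF2⟩ : ∃ F2 : ℝ × W → ℝ × W, F2 = fun p : ℝ × W =>
      (p.1, ‖(e.symm (p.1, c0 • p.2)).2‖⁻¹ • (e.symm (p.1, c0 • p.2)).2) := ⟨_, rfl⟩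
    have c2 : ContinuousAt F2 (dirMap Φ hH x).1 := by
      rw [hF2]
      have h1 : ContinuousAt (fun p : ℝ × W => (e.symm (p.1, c0 • p.2)).2) (dirMap Φ hH x).1 :=
        continuous_snd.continuousAt.comp c1
      exact continuous_fst.continuousAt.prodMk
        ((h1.norm.inv₀ (norm_ne_zero_iff.2 hw0)).smul h1)
    have v2 : F2 (dirMap Φ hH x).1 = x.1 := by
      rw [hF2]
      show ((dirMap Φ hH x).1.1, ‖(e.symm ((dirMap Φ hH x).1.1, c0 • (dirMap Φ hH x).1.2)).2‖⁻¹ •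
        (e.symm ((dirMap Φ hH x).1.1, c0 • (dirMap Φ hH x).1.2)).2) = x.1
      rw [v1, hone, inv_one, one_smul]
      rfl
    have E1 : ∀ᶠ p in 𝓝 (dirMap Φ hH x).1, F2 p ∈ S := by
      apply c2.eventually
      rw [v2]
      exact hS
    have E2 : ∀ᶠ p : ℝ × W in 𝓝 (dirMap Φ hH x).1, (p.1, c0 • p.2) ∈ e.target := by
      have h1 : ContinuousAt (fun p : ℝ × W => (p.1, c0 • p.2)) (dirMap Φ hH x).1 := by fun_prop
      apply h1.eventually
      show e.target ∈ 𝓝 ((dirMap Φ hH x).1.1, c0 • (dirMap Φ hH x).1.2)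
      rw [hy0]
      exact e.open_target.mem_nhds (e.map_source hes)
    have E3 : ∀ᶠ p in 𝓝 (dirMap Φ hH x).1, (e.symm (p.1, c0 • p.2)).2 ≠ 0 :=
      (continuous_snd.continuousAt.comp c1).eventually_ne hw0
    have E4 : ∀ᶠ y : KK W in 𝓝 (dirMap Φ hH x), y ∈ dirMap Φ hH '' s := by
      filter_upwards [continuous_subtype_val.continuousAt.eventually E1,
        continuous_subtype_val.continuousAt.eventually E2,
        continuous_subtype_val.continuousAt.eventually E3] with y y1 y2 y3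
      set q := e.symm (y.1.1, c0 • y.1.2) with hq
      have hq2 : e q = (y.1.1, c0 • y.1.2) := e.right_inv y2
      rw [he] at hq2
      have hq3 : q.1 = y.1.1 := (Prod.ext_iff.1 hq2).1
      have hq4 : Φ y.1.1 q.2 = c0 • y.1.2 := by
        have : Φ q.1 q.2 = c0 • y.1.2 := (Prod.ext_iff.1 hq2).2
        rwa [hq3] at this
      rw [hF2] at y1
      have hmem : ((y.1.1, ‖q.2‖⁻¹ • q.2) : ℝ × W) ∈ KK W :=
        ⟨y.2.1, by rw [mem_sphere_zero_iff_norm]; exact unit_of y3⟩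
      refine ⟨⟨_, hmem⟩, hSs y1, ?_⟩
      apply Subtype.ext
      show ((y.1.1, ‖Φ y.1.1 (‖q.2‖⁻¹ • q.2)‖⁻¹ • Φ y.1.1 (‖q.2‖⁻¹ • q.2)) : ℝ × W) = y.1
      have hqi : 0 < ‖q.2‖⁻¹ := inv_pos.2 (norm_pos_iff.2 y3)
      have h5 : Φ y.1.1 (‖q.2‖⁻¹ • q.2) = (‖q.2‖⁻¹ * c0) • y.1.2 := by
        rw [(hH _).hom _ hqi.le, hq4, smul_smul]
      have h6 : ‖(‖q.2‖⁻¹ * c0) • y.1.2‖ = ‖q.2‖⁻¹ * c0 := by
        rw [norm_smul, hone, mul_one, Real.norm_of_nonneg (mul_pos hqi hc0p).le]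
      rw [h5, h6, smul_smul, inv_mul_cancel₀ (mul_pos hqi hc0p).ne', one_smul]
    exact E4
  · -- locally injective
    intro x
    obtain ⟨e, hes, he⟩ := total_local hs (hne x) ((hH x.1.1).der _ (hne x))
    set c0 : ℝ := ‖Φ x.1.1 x.1.2‖ with hc0
    have hc0p : 0 < c0 := norm_pos_iff.2 ((hH _).ne_zero (hne x))
    have a1 : ContinuousAt (fun q : KK W × KK W => ‖uncurry Φ q.2.1‖ * ‖uncurry Φ q.1.1‖⁻¹)
        (x, x) := by
      have b1 : ContinuousAt (fun q : KK W × KK W => uncurry Φ q.2.1) (x, x) :=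
        ContinuousAt.comp (f := fun q : KK W × KK W => q.2.1) (g := uncurry Φ) (hcat x)
          (continuous_subtype_val.comp continuous_snd).continuousAt
      have b2 : ContinuousAt (fun q : KK W × KK W => uncurry Φ q.1.1) (x, x) :=
        ContinuousAt.comp (f := fun q : KK W × KK W => q.1.1) (g := uncurry Φ) (hcat x)
          (continuous_subtype_val.comp continuous_fst).continuousAt
      exact b1.norm.mul (b2.norm.inv₀ (norm_ne_zero_iff.2 ((hH _).ne_zero (hne x))))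
    have a2 : ContinuousAt (fun q : KK W × KK W => ((q.1.1.1,
        (‖uncurry Φ q.2.1‖ * ‖uncurry Φ q.1.1‖⁻¹) • q.1.1.2) : ℝ × W)) (x, x) := by
      have b3 : ContinuousAt (fun q : KK W × KK W => q.1.1.1) (x, x) :=
        (continuous_fst.comp (continuous_subtype_val.comp continuous_fst)).continuousAt
      have b4 : ContinuousAt (fun q : KK W × KK W => q.1.1.2) (x, x) :=
        (continuous_snd.comp (continuous_subtype_val.comp continuous_fst)).continuousAt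
      exact b3.prodMk (a1.smul b4)
    have a3 : ∀ᶠ q : KK W × KK W in 𝓝 (x, x), ((q.1.1.1,
        (‖uncurry Φ q.2.1‖ * ‖uncurry Φ q.1.1‖⁻¹) • q.1.1.2) : ℝ × W) ∈ e.source := by
      apply a2.eventually
      have : ((x.1.1, (‖uncurry Φ x.1‖ * ‖uncurry Φ x.1‖⁻¹) • x.1.2) : ℝ × W) = x.1 := by
        have hne1 : ‖uncurry Φ x.1‖ ≠ 0 := norm_ne_zero_iff.2 ((hH x.1.1).ne_zero (hne x))
        rw [mul_inv_cancel₀ hne1, one_smul]
      show e.source ∈ 𝓝 ((x.1.1, (‖uncurry Φ x.1‖ * ‖uncurry Φ x.1‖⁻¹) • x.1.2) : ℝ × W)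
      rw [this]
      exact e.open_source.mem_nhds hes
    have a4 : ∀ᶠ q : KK W in 𝓝 x, q.1 ∈ e.source :=
      continuous_subtype_val.continuousAt.eventually (e.open_source.mem_nhds hes)
    rw [nhds_prod_eq] at a3
    obtain ⟨u, hu, hu2⟩ := mem_prod_self_iff.1 a3
    refine ⟨u ∩ {q | q.1 ∈ e.source}, inter_mem hu a4, ?_⟩
    rintro p ⟨hp, hpe⟩ q ⟨hq, hqe⟩ hpq
    have h1 : ((p.1.1, ‖Φ p.1.1 p.1.2‖⁻¹ • Φ p.1.1 p.1.2) : ℝ × W) =
      (q.1.1, ‖Φ q.1.1 q.1.2‖⁻¹ • Φ q.1.1 q.1.2) := congrArg Subtype.val hpq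
    have h2 : p.1.1 = q.1.1 := (Prod.ext_iff.1 h1).1
    have h3 : ‖Φ p.1.1 p.1.2‖⁻¹ • Φ p.1.1 p.1.2 = ‖Φ q.1.1 q.1.2‖⁻¹ • Φ q.1.1 q.1.2 :=
      (Prod.ext_iff.1 h1).2
    have hmem : ((p.1.1, (‖uncurry Φ q.1‖ * ‖uncurry Φ p.1‖⁻¹) • p.1.2) : ℝ × W) ∈ e.source :=
      hu2 (mk_mem_prod hp hq)
    have hpn : ‖Φ p.1.1 p.1.2‖ ≠ 0 := norm_ne_zero_iff.2 ((hH _).ne_zero (hne p))
    have hqn : ‖Φ q.1.1 q.1.2‖ ≠ 0 := norm_ne_zero_iff.2 ((hH _).ne_zero (hne q))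
    have h4 : Φ p.1.1 ((‖uncurry Φ q.1‖ * ‖uncurry Φ p.1‖⁻¹) • p.1.2) = Φ q.1.1 q.1.2 := by
      rw [(hH _).hom _ (by positivity)]
      show (‖Φ q.1.1 q.1.2‖ * ‖Φ p.1.1 p.1.2‖⁻¹) • Φ p.1.1 p.1.2 = Φ q.1.1 q.1.2
      rw [mul_smul, h3, smul_smul, mul_inv_cancel₀ hqn, one_smul]
    have h5 : e (p.1.1, (‖uncurry Φ q.1‖ * ‖uncurry Φ p.1‖⁻¹) • p.1.2) = e q.1 := by
      rw [he, he]
      exact Prod.ext h2 h4
    have h6 := e.injOn hmem hqe h5
    have h7 : (‖uncurry Φ q.1‖ * ‖uncurry Φ p.1‖⁻¹) • p.1.2 = q.1.2 := (Prod.ext_iff.1 h6).2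
    have h8 : ‖uncurry Φ q.1‖ * ‖uncurry Φ p.1‖⁻¹ = 1 := by
      have h9 := congrArg norm h7
      rw [norm_smul, hone, hone, mul_one, Real.norm_of_nonneg (by positivity)] at h9
      exact h9
    rw [h8, one_smul] at h7
    exact Subtype.ext (Prod.ext h2 h7)
  · -- the value at time zero
    intro x hx
    have h1 := congrArg Subtype.val hx
    have h2 : x.1.1 = 0 := (Prod.ext_iff.1 h1).1
    have h3 : ‖Φ x.1.1 x.1.2‖⁻¹ • Φ x.1.1 x.1.2 =
      ‖Φ 0 (hconn.nonempty.some).2‖⁻¹ • Φ 0 (hconn.nonempty.some).2 := (Prod.ext_iff.1 h1).2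
    have h4 : ‖(hconn.nonempty.some).2‖ = 1 := by simpa using hconn.nonempty.some_mem.2
    rw [h2, h0, hone, h4, inv_one, one_smul, one_smul] at h3
    exact Subtype.ext (Prod.ext h2 h3)

/-- all maps of the path are bijective -/
theorem Iso.bij {G : Set (W ≃ₗᵢ[ℝ] W)} {Φ : ℝ → W → W} (hH : ∀ t, HD G (Φ t))
    (hs : ContDiffOn ℝ ∞ (uncurry Φ) (univ ×ˢ {0}ᶜ)) (h0 : Φ 0 = fun v => v)
    (hrank : 1 < Module.rank ℝ W) {t : ℝ} (ht : t ∈ Icc (0:ℝ) 1) : Bijective (Φ t) := by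
  obtain ⟨hi, hsur⟩ := dirMap_bij hH hs h0 hrank
  have hmem : ∀ v : W, v ≠ 0 → ((t, ‖v‖⁻¹ • v) : ℝ × W) ∈ KK W := fun v hv =>
    ⟨ht, by rw [mem_sphere_zero_iff_norm]; exact unit_of hv⟩
  have hdir : ∀ v : W, v ≠ 0 → Φ t (‖v‖⁻¹ • v) = ‖v‖⁻¹ • Φ t v := fun v _ =>
    (hH t).hom _ (inv_nonneg.2 (norm_nonneg v)) v
  constructor
  · intro v w hvw
    by_cases hv : v = 0
    · by_contra hne
      rw [hv, (hH t).zero] at hvw
      have hw : w ≠ 0 := fun h => hne (hv.trans h.symm)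
      exact (hH t).ne_zero hw hvw.symm
    by_cases hw : w = 0
    · exfalso
      rw [hw, (hH t).zero] at hvw
      exact (hH t).ne_zero hv hvw
    have key : ∀ u : W, u ≠ 0 → ‖Φ t (‖u‖⁻¹ • u)‖⁻¹ • Φ t (‖u‖⁻¹ • u) =
        ‖Φ t u‖⁻¹ • Φ t u := by
      intro u hu
      have hup : 0 < ‖u‖ := norm_pos_iff.2 hu
      rw [hdir u hu, norm_smul, norm_inv, norm_norm, smul_smul, mul_inv, inv_inv]
      congr 1
      field_simp
    have h1 : dirMap Φ hH ⟨_, hmem v hv⟩ = dirMap Φ hH ⟨_, hmem w hw⟩ := by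
      apply Subtype.ext
      refine Prod.ext rfl ?_
      show ‖Φ t (‖v‖⁻¹ • v)‖⁻¹ • Φ t (‖v‖⁻¹ • v) = ‖Φ t (‖w‖⁻¹ • w)‖⁻¹ • Φ t (‖w‖⁻¹ • w)
      rw [key v hv, key w hw, hvw]
    have h2 : ‖v‖⁻¹ • v = ‖w‖⁻¹ • w := (Prod.ext_iff.1 (congrArg Subtype.val (hi h1))).2
    have hvp : 0 < ‖v‖ := norm_pos_iff.2 hv
    have hwp : 0 < ‖w‖ := norm_pos_iff.2 hw
    have h3 : ‖v‖⁻¹ • Φ t v = ‖w‖⁻¹ • Φ t w := by rw [← hdir v hv, ← hdir w hw, h2]
    rw [hvw] at h3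
    have h4 : ‖v‖⁻¹ = ‖w‖⁻¹ := by
      have h5 : (‖v‖⁻¹ - ‖w‖⁻¹) • Φ t w = 0 := by rw [sub_smul, h3, sub_self]
      rcases smul_eq_zero.1 h5 with h | h
      · linarith
      · exact absurd h ((hH t).ne_zero hw)
    rw [h4] at h2
    have h6 := congrArg (fun x => ‖w‖ • x) h2
    simpa [smul_smul, mul_inv_cancel₀ hwp.ne'] using h6
  · intro y
    by_cases hy : y = 0
    · exact ⟨0, by rw [(hH t).zero, hy]⟩
    obtain ⟨x, hx⟩ := hsur ⟨_, hmem y hy⟩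
    have h1 : ((x.1.1, ‖Φ x.1.1 x.1.2‖⁻¹ • Φ x.1.1 x.1.2) : ℝ × W) = (t, ‖y‖⁻¹ • y) :=
      congrArg Subtype.val hx
    have h2 : x.1.1 = t := (Prod.ext_iff.1 h1).1
    have h3 : ‖Φ x.1.1 x.1.2‖⁻¹ • Φ x.1.1 x.1.2 = ‖y‖⁻¹ • y := (Prod.ext_iff.1 h1).2
    rw [h2] at h3
    have hx0 : x.1.2 ≠ 0 := by
      have : ‖x.1.2‖ = 1 := by simpa using x.2.2
      exact norm_ne_zero_iff.1 (by rw [this]; norm_num)
    have hyp : 0 < ‖y‖ := norm_pos_iff.2 hy
    refine ⟨(‖y‖ * ‖Φ t x.1.2‖⁻¹) • x.1.2, ?_⟩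
    rw [(hH t).hom _ (by positivity), mul_smul, h3, smul_smul, mul_inv_cancel₀ hyp.ne', one_smul]

/-- the inverse of a bijective homogeneous local diffeomorphism -/
theorem exists_inverse {G : Set (W ≃ₗᵢ[ℝ] W)} {f : W → W} (hf : HD G f)
    (hs : ContDiffOn ℝ ∞ f {0}ᶜ) (hb : Bijective f) :
    ∃ g : W → W, LeftInverse g f ∧ RightInverse g f ∧ ContDiffOn ℝ ∞ g {0}ᶜ ∧ HD G g := by
  let g : W → W := (Equiv.ofBijective f hb).symm
  have hgf : LeftInverse g f := (Equiv.ofBijective f hb).left_inv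
  have hfg : RightInverse g f := (Equiv.ofBijective f hb).right_inv
  have hg0 : ∀ y : W, y ≠ 0 → g y ≠ 0 := by
    intro y hy h
    apply hy
    rw [← hfg y, h, hf.zero]
  have hloc : ∀ y : W, y ≠ 0 → ContDiffAt ℝ ∞ g y ∧
      ∃ A : W ≃L[ℝ] W, HasFDerivAt g (A : W →L[ℝ] W) y := by
    intro y hy
    have hx := hg0 y hy
    obtain ⟨A, hA⟩ := hf.der _ hx
    have hc : ContDiffAt ℝ ∞ f (g y) := hs.contDiffAt (isOpen_compl_singleton.mem_nhds hx)
    have h1 := hc.to_localInverse hA (by simp)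
    have hst : HasStrictFDerivAt f (A : W →L[ℝ] W) (g y) := hc.hasStrictFDerivAt' hA (by simp)
    have h2 : hc.localInverse hA (by simp) =ᶠ[𝓝 (f (g y))] g := by
      have h3 := hst.eventually_right_inverse
      filter_upwards [h3] with z hz
      have h4 : f (hc.localInverse hA (by simp) z) = z := hz
      exact hb.1 (h4.trans (hfg z).symm)
    have h5 : ContDiffAt ℝ ∞ g (f (g y)) := h1.congr_of_eventuallyEq h2.symm
    rw [hfg y] at h5 h2
    refine ⟨h5, A.symm, ?_⟩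
    have h6 : HasFDerivAt (hst.localInverse f A (g y)) (A.symm : W →L[ℝ] W) (f (g y)) :=
      hst.to_localInverse.hasFDerivAt
    rw [hfg y] at h6
    exact h6.congr_of_eventuallyEq h2.symm
  refine ⟨g, hgf, hfg, fun y hy => (hloc y hy).1.contDiffWithinAt, ?_, ?_, ?_⟩
  · intro r hr v
    apply hb.1
    rw [hfg, hf.hom r hr, hfg]
  · intro R hR v
    apply hb.1
    rw [hfg, hf.equi R hR, hfg]
  · exact fun v hv => (hloc v hv).2

end Pool.Agent.Q196.NP
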