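import Pool.Agent.Q196.NP.Hom

/-!
# Smoothing a path of homogeneous maps which are close to linear at one scale
-/

set_option autoImplicit false

open Set Filter Topology Metric Function MeasureTheory
open scoped ContDiff

noncomputable section

namespace Pool.Agent.Q196.NP

variable {W : Type*} [NormedAddCommGroup W] [InnerProductSpace ℝ W] [FiniteDimensional ℝ W]
  [MeasurableSpace W] [BorelSpace W]

theorem cont_MS {H : ℝ → W → W} (hH : Continuous (uncurry H)) {s : ℝ} (hs : 0 < s) :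
    Continuous fun p : ℝ × W => MS s (H p.1) p.2 := by
  have h1 : (fun p : ℝ × W => MS s (H p.1) p.2) = fun p : ℝ × W =>
      ∫ t in closedBall (0 : W) 1, kr t • H p.1 (p.2 - s • t) := by
    funext p
    rw [← MM_eq hs.ne']
    show (∫ t, kr t • H p.1 (p.2 - s • t)) = _
    rw [setIntegral_eq_integral_of_forall_compl_eq_zero]
    intro t ht
    rw [mem_closedBall_zero_iff, not_le] at ht
    rw [kr_zero ht.le, zero_smul]
  rw [h1]
  refine continuous_parametric_integral_of_continuous ?_ (isCompact_closedBall _ _)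
  have a1 : Continuous fun q : (ℝ × W) × W => kr q.2 := kr_smooth.continuous.comp continuous_snd
  have a2 : Continuous fun q : (ℝ × W) × W => uncurry H (q.1.1, q.1.2 - s • q.2) :=
    hH.comp ((continuous_fst.comp continuous_fst).prodMk
      ((continuous_snd.comp continuous_fst).sub (continuous_snd.const_smul s)))
  exact a1.smul a2

lemma MS_ident {s : ℝ} (hs : 0 < s) (x : W) : MS s (fun v => v) x = x := by
  have hk := MS_near (F := fun y : W => y) continuous_id.locallyIntegrable hs (x := x)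
    (L := ContinuousLinearMap.id ℝ W) (ε := 0) (by
      intro w _
      simp)
  have h2 := hk.2
  rw [zero_mul] at h2
  have h3 := norm_le_zero_iff.1 h2
  rw [ContinuousLinearMap.id_apply] at h3
  exact sub_eq_zero.1 h3

lemma Gs_ident {s : ℝ} (hs : 0 < s) : Gs s (fun v : W => v) = fun v => v := by
  funext v
  unfold Gs
  rw [MS_ident hs]
  by_cases hv : v = 0
  · rw [hv, norm_zero, zero_smul]
  · rw [smul_smul, mul_inv_cancel₀ (norm_ne_zero_iff.2 hv), one_smul]

omit [MeasurableSpace W] [BorelSpace W] in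
/-- smooth cutoff at the origin -/
lemma exists_cut : ∃ b : W → ℝ, ContDiff ℝ ∞ b ∧ (∀ᶠ y in 𝓝 (0 : W), b y = 0) ∧
    ∀ y : W, 1 / 2 ≤ ‖y‖ → b y = 1 := by
  let b : ContDiffBump (0 : W) := ⟨1 / 8, 1 / 4, by norm_num, by norm_num⟩
  refine ⟨fun x => 1 - b x, contDiff_const.sub b.contDiff, ?_, fun y hy => ?_⟩
  · filter_upwards [ball_mem_nhds (0 : W) (by norm_num : (0:ℝ) < 1 / 8)] with y hy
    rw [b.one_of_mem_closedBall (ball_subset_closedBall hy), sub_self]
  · have : b y = 0 := by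
      apply b.zero_of_le_dist
      rw [dist_zero_right]
      exact le_trans (by norm_num) hy
    show 1 - b y = 1
    rw [this, sub_zero]

/-- a smooth homogeneous map, close to linear at all scales `≤ s`, is isotopic to its
mollification -/
theorem iso_Gs {G : Set (W ≃ₗᵢ[ℝ] W)} {F : W → W} (hF : Continuous F) (hFs : ContDiffOn ℝ ∞ F {0}ᶜ)
    (hFH : HD G F) {s : ℝ} (hs : 0 < s) (hs1 : s ≤ 1 / 2)
    (hn : ∀ v, ‖v‖ = 1 → ∀ r, 0 < r → r ≤ s → Near (eps W) F v r) : Iso G F (Gs s F) := by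
  obtain ⟨b, hb, hb0, hb1⟩ := exists_cut (W := W)
  set F1 : W → W := fun x => b x • F x with hF1
  have hF1s : ContDiff ℝ ∞ F1 := by
    rw [contDiff_iff_contDiffAt]
    intro x
    by_cases hx : x = 0
    · have h1 : F1 =ᶠ[𝓝 x] fun _ => 0 := by
        rw [hx]
        filter_upwards [hb0] with y hy
        show b y • F y = 0
        rw [hy, zero_smul]
      exact contDiffAt_const.congr_of_eventuallyEq h1
    · exact hb.contDiffAt.smul (hFs.contDiffAt (isOpen_compl_singleton.mem_nhds hx))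
  have hMM : ∀ (σ : ℝ) (v : W), ‖v‖ = 1 → 0 ≤ σ → σ ≤ s → MM F1 σ v = MM F σ v := by
    intro σ v hv hσ hσs
    show (∫ t, kr t • F1 (v - σ • t)) = ∫ t, kr t • F (v - σ • t)
    congr 1
    funext t
    by_cases ht : ‖t‖ ≤ 1
    · have h1 : 1 / 2 ≤ ‖v - σ • t‖ := by
        have h2 := norm_sub_norm_le v (σ • t)
        rw [norm_smul, hv, Real.norm_of_nonneg hσ] at h2
        nlinarith [norm_nonneg t]
      show kr t • (b (v - σ • t) • F (v - σ • t)) = _
      rw [hb1 _ h1, one_smul]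
    · rw [kr_zero (not_le.1 ht).le, zero_smul, zero_smul]
  have hpos : ∀ τ : ℝ, Real.smoothTransition τ = 0 ∨
      (0 < s * Real.smoothTransition τ ∧ s * Real.smoothTransition τ ≤ s) := by
    intro τ
    rcases (Real.smoothTransition.nonneg τ).eq_or_lt with h | h
    · exact Or.inl h.symm
    · exact Or.inr ⟨mul_pos hs h, by
        nlinarith [Real.smoothTransition.le_one τ]⟩
  set Φ : ℝ → W → W := fun τ v => ‖v‖ • MM F1 (s * Real.smoothTransition τ) (‖v‖⁻¹ • v) with hΦ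
  have hunit : ∀ v : W, v ≠ 0 → ‖‖v‖⁻¹ • v‖ = 1 := by
    intro v hv
    rw [norm_smul, norm_inv, norm_norm, inv_mul_cancel₀ (norm_ne_zero_iff.2 hv)]
  have hΦ0 : ∀ τ : ℝ, Real.smoothTransition τ = 0 → Φ τ = F := by
    intro τ hτ
    funext v
    by_cases hv : v = 0
    · rw [hv]
      have h0 := hFH.hom 0 le_rfl 0
      rw [zero_smul, zero_smul] at h0
      show ‖(0:W)‖ • _ = F 0
      rw [norm_zero, zero_smul, h0]
    · show ‖v‖ • MM F1 (s * Real.smoothTransition τ) (‖v‖⁻¹ • v) = F v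
      rw [hMM _ _ (hunit v hv) (by rw [hτ, mul_zero]) (by rw [hτ, mul_zero]; exact hs.le), hτ,
        mul_zero, MM_zero, hFH.hom _ (inv_nonneg.2 (norm_nonneg v)), smul_smul,
        mul_inv_cancel₀ (norm_ne_zero_iff.2 hv), one_smul]
  have hΦ1 : ∀ τ : ℝ, 0 < s * Real.smoothTransition τ → s * Real.smoothTransition τ ≤ s →
      Φ τ = Gs (s * Real.smoothTransition τ) F := by
    intro τ h1 h2
    funext v
    by_cases hv : v = 0
    · rw [hv]
      show ‖(0:W)‖ • _ = ‖(0:W)‖ • _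
      rw [norm_zero, zero_smul, zero_smul]
    · show ‖v‖ • MM F1 (s * Real.smoothTransition τ) (‖v‖⁻¹ • v) =
        ‖v‖ • MS (s * Real.smoothTransition τ) F (‖v‖⁻¹ • v)
      rw [hMM _ _ (hunit v hv) h1.le h2, MM_eq h1.ne']
  refine ⟨Φ, ?_, ?_, ?_, ?_⟩
  · have a0 : ContDiffOn ℝ ∞ (fun p : ℝ × W => s * Real.smoothTransition p.1) (univ ×ˢ {0}ᶜ) :=
      (contDiff_const.mul (Real.smoothTransition.contDiff.comp contDiff_fst)).contDiffOn
    have a1 : ContDiffOn ℝ ∞ (fun p : ℝ × W => ‖p.2‖⁻¹ • p.2) (univ ×ˢ {0}ᶜ) :=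
      (dir_contDiffOn (W := W)).comp contDiff_snd.contDiffOn fun p hp => hp.2
    have a2 : ContDiffOn ℝ ∞ (fun p : ℝ × W => ‖p.2‖) (univ ×ˢ {0}ᶜ) :=
      (norm_contDiffOn (W := W)).comp contDiff_snd.contDiffOn fun p hp => hp.2
    exact a2.smul ((MM_smooth hF1s).comp_contDiffOn (a0.prodMk a1))
  · intro τ
    rcases hpos τ with h | ⟨h, h'⟩
    · rw [hΦ0 τ h]
      exact hFH
    · rw [hΦ1 τ h h']
      exact Gs_HD hF hFH.hom hFH.equi h (h'.trans (hs1.trans (by norm_num)))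
        fun v hv => hn v hv _ h h'
  · intro τ hτ
    exact hΦ0 τ (Real.smoothTransition.zero_of_nonpos hτ)
  · intro τ hτ
    have h1 : Real.smoothTransition τ = 1 := Real.smoothTransition.one_of_one_le hτ
    have h2 := hΦ1 τ (by rw [h1, mul_one]; exact hs) (by rw [h1, mul_one])
    rw [h2, h1, mul_one]

/-- **smoothing of paths of homogeneous maps** -/
theorem iso_of_near {G : Set (W ≃ₗᵢ[ℝ] W)} {H : ℝ → W → W} (hH : Continuous (uncurry H))
    (hom : ∀ t, ∀ r : ℝ, 0 ≤ r → ∀ v, H t (r • v) = r • H t v)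
    (hG : ∀ t, ∀ R ∈ G, ∀ v, H t (R v) = R (H t v)) {s : ℝ} (hs : 0 < s) (hs1 : s ≤ 1 / 2)
    (hn : ∀ t v, ‖v‖ = 1 → Near (eps W) (H t) v s)
    (h0 : H 0 = fun v => v) (hsm : ContDiffOn ℝ ∞ (H 1) {0}ᶜ) (hHD : HD G (H 1))
    (hn1 : ∀ v, ‖v‖ = 1 → ∀ r, 0 < r → r ≤ s → Near (eps W) (H 1) v r) :
    Iso G (fun v => v) (H 1) := by
  have hcont : ∀ t, Continuous (H t) := fun t => hH.comp (continuous_const.prodMk continuous_id)
  have hs2 : s ≤ 1 := hs1.trans (by norm_num)
  have hHDt : ∀ t, HD G (Gs s (H t)) := fun t => Gs_HD (hcont t) (hom t) (hG t) hs hs2 (hn t)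
  have hsmt : ∀ t, ContDiffOn ℝ ∞ (Gs s (H t)) {0}ᶜ := fun t => Gs_smooth (hcont t) hs
  -- short times
  set P : ℝ × W → (W →L[ℝ] W) := fun p =>
    Dh (MS s (H p.1) p.2) (fderiv ℝ (MS s (H p.1)) p.2) p.2 with hP
  have hPc : Continuous P := by
    have c1 := cont_MS hH hs
    have c2 := cont_fderiv_MS hH hs
    have c3 : Continuous fun p : ℝ × W => innerSL ℝ p.2 :=
      (innerSL ℝ (E := W)).continuous.comp continuous_snd
    rw [continuous_clm_apply]
    intro h
    have e : (fun p : ℝ × W => P p h) = fun p : ℝ × W => (inner ℝ p.2 h : ℝ) • MS s (H p.1) p.2 +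
        fderiv ℝ (MS s (H p.1)) p.2 (h - (inner ℝ p.2 h : ℝ) • p.2) := rfl
    rw [e]
    have c4 : Continuous fun p : ℝ × W => (inner ℝ p.2 h : ℝ) :=
      continuous_snd.inner continuous_const
    exact (c4.smul c1).add (c2.clm_apply (continuous_const.sub (c4.smul continuous_snd)))
  set V : Set ((ℝ × ℝ) × (ℝ × W)) := {q | (1 - q.2.1) • P (q.1.1, q.2.2) +
    q.2.1 • P (q.1.2, q.2.2) ∈ range ((↑) : (W ≃L[ℝ] W) → W →L[ℝ] W)} with hV
  have hVo : IsOpen V := by
    have h1 : Continuous fun q : (ℝ × ℝ) × (ℝ × W) => (1 - q.2.1) • P (q.1.1, q.2.2) +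
        q.2.1 • P (q.1.2, q.2.2) := by fun_prop
    exact (ContinuousLinearEquiv.isOpen (𝕜 := ℝ) (E := W) (F := W)).preimage h1
  set Q : Set ((ℝ × ℝ) × (ℝ × W)) := (fun p : ℝ × (ℝ × W) => ((p.1, p.1), p.2)) ''
    (Icc (0:ℝ) 1 ×ˢ (Icc (0:ℝ) 1 ×ˢ sphere (0:W) 1)) with hQ
  have hQc : IsCompact Q :=
    (isCompact_Icc.prod (isCompact_Icc.prod (isCompact_sphere (0:W) 1))).image (by fun_prop)
  have hQV : Q ⊆ V := by
    rintro _ ⟨⟨t, τ, x⟩, ⟨-, -, hx⟩, rfl⟩
    have hx1 : ‖x‖ = 1 := by simpa using hx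
    obtain ⟨A, hA⟩ := Gs_equiv (hcont t) (hom t) hs hs2 hx1 (hn t x hx1)
    have e : ∀ B : W →L[ℝ] W, (1 - τ) • B + τ • B = B := fun B => by
      ext1 v
      show (1 - τ) • B v + τ • B v = B v
      rw [← add_smul, sub_add_cancel, one_smul]
    exact ⟨A, hA.trans (e (P (t, x))).symm⟩
  obtain ⟨η, hη, hηV⟩ := hQc.exists_thickening_subset_open hVo hQV
  have key2 : ∀ t t', t ∈ Icc (0:ℝ) 1 → |t' - t| < η → Iso G (Gs s (H t)) (Gs s (H t')) := by
    intro t t' ht htt
    refine Iso.straight (hsmt t) (hsmt t') (hHDt t) (hHDt t') ?_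
    intro τ hτ0 hτ1 x hx
    have hd1 : HasFDerivAt (Gs s (H t)) (P (t, x)) x := Gs_deriv (hcont t) hs hx
    have hd2 : HasFDerivAt (Gs s (H t')) (P (t', x)) x := Gs_deriv (hcont t') hs hx
    have hmem : ((t, t'), (τ, x)) ∈ V := by
      apply hηV
      rw [mem_thickening_iff]
      refine ⟨((t, t), (τ, x)), ⟨(t, τ, x), ⟨ht, ⟨hτ0, hτ1⟩, by simpa using hx⟩, rfl⟩, ?_⟩
      rw [Prod.dist_eq, Prod.dist_eq, dist_self, dist_self, max_eq_right dist_nonneg,
        max_eq_left dist_nonneg, Real.dist_eq]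
      exact htt
    obtain ⟨A, hA⟩ := hmem
    have hA' : (A : W →L[ℝ] W) = (1 - τ) • P (t, x) + τ • P (t', x) := hA
    refine ⟨A, ?_⟩
    rw [hA']
    exact (hd1.const_smul (1 - τ)).add (hd2.const_smul τ)
  -- chain
  obtain ⟨N, hN⟩ := exists_nat_gt (1 / η)
  have hN0 : (0:ℝ) < N := (by positivity : (0:ℝ) < 1 / η).trans hN
  have hNη : 1 / (N:ℝ) < η := by
    rw [div_lt_iff₀ hN0]
    rw [div_lt_iff₀ hη] at hN
    linarith
  have key3 : ∀ k : ℕ, k ≤ N → Iso G (fun v => v) (Gs s (H (k / N))) := by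
    intro k
    induction k with
    | zero =>
      intro _
      rw [Nat.cast_zero, zero_div]
      have h1 : Gs s (H 0) = fun v => v := by rw [h0]; exact Gs_ident hs
      have h2 := hsmt 0
      have h3 := hHDt 0
      rw [h1] at h2 h3 ⊢
      refine Iso.straight h2 h2 h3 h3 ?_
      intro τ _ _ x _
      refine ⟨ContinuousLinearEquiv.refl ℝ W, ?_⟩
      have h4 : (fun x : W => (1 - τ) • x + τ • x) = fun x => x := by
        funext x
        rw [← add_smul, sub_add_cancel, one_smul]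
      rw [h4]
      exact hasFDerivAt_id x
    | succ k ih =>
      intro hk
      refine (ih (by omega)).trans (key2 _ _ ⟨by positivity, ?_⟩ ?_)
      · rw [div_le_one hN0]
        exact_mod_cast (by omega : k ≤ N)
      · have : ((k + 1 : ℕ) : ℝ) / N - k / N = 1 / N := by
          push_cast
          ring
        rw [this, abs_of_pos (by positivity)]
        exact hNη
  have h1 := key3 N le_rfl
  rw [div_self hN0.ne'] at h1
  exact h1.trans (iso_Gs (hcont 1) hsm hHD hs hs1 hn1).symm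

end Pool.Agent.Q196.NP
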