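import Pool.Agent.Q196.NP.Sph

/-!
# Linear isomorphisms of positive determinant are joined to the identity
-/

set_option autoImplicit false

open Set Filter Topology Metric Function Module Matrix
open scoped ContDiff Manifold

noncomputable section

namespace Pool.Agent.Q196.NP

variable {N : ℕ}

/-- the segment from `A` to `B` consists of invertible matrices -/
def Sg (A B : Matrix (Fin N) (Fin N) ℝ) : Prop :=
  ∀ τ : ℝ, 0 ≤ τ → τ ≤ 1 → ((1 - τ) • A + τ • B).det ≠ 0

lemma Sg.left {A B : Matrix (Fin N) (Fin N) ℝ} (h : Sg A B) (C : Matrix (Fin N) (Fin N) ℝ)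
    (hC : C.det ≠ 0) : Sg (C * A) (C * B) := by
  intro τ h0 h1
  have : (1 - τ) • (C * A) + τ • (C * B) = C * ((1 - τ) • A + τ • B) := by
    rw [mul_add, mul_smul_comm, mul_smul_comm]
  rw [this, det_mul]
  exact mul_ne_zero hC (h τ h0 h1)

lemma Sg.right {A B : Matrix (Fin N) (Fin N) ℝ} (h : Sg A B) (C : Matrix (Fin N) (Fin N) ℝ)
    (hC : C.det ≠ 0) : Sg (A * C) (B * C) := by
  intro τ h0 h1
  have : (1 - τ) • (A * C) + τ • (B * C) = ((1 - τ) • A + τ • B) * C := by
    rw [add_mul, smul_mul_assoc, smul_mul_assoc]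
  rw [this, det_mul]
  exact mul_ne_zero (h τ h0 h1) hC

lemma Sg.sign {A B : Matrix (Fin N) (Fin N) ℝ} (h : Sg A B) (hB : 0 < B.det) : 0 < A.det := by
  by_contra hcon
  push Not at hcon
  have hc : Continuous fun τ : ℝ => ((1 - τ) • A + τ • B).det := by
    apply Continuous.matrix_det
    fun_prop
  have h1 := intermediate_value_Icc (zero_le_one (α := ℝ)) hc.continuousOn
  have h2 : (0 : ℝ) ∈ Icc ((fun τ : ℝ => ((1 - τ) • A + τ • B).det) 0)
      ((fun τ : ℝ => ((1 - τ) • A + τ • B).det) 1) := by
    constructor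
    · simpa using hcon
    · simpa using hB.le
  obtain ⟨τ, ⟨h3, h4⟩, h5⟩ := h1 h2
  exact h τ h3 h4 h5

/-- chains of segments -/
abbrev Lk (A B : Matrix (Fin N) (Fin N) ℝ) : Prop := Relation.ReflTransGen Sg A B

lemma Lk.left {A B : Matrix (Fin N) (Fin N) ℝ} (h : Lk A B) (C : Matrix (Fin N) (Fin N) ℝ)
    (hC : C.det ≠ 0) : Lk (C * A) (C * B) := by
  induction h with
  | refl => exact Relation.ReflTransGen.refl
  | tail _ h2 ih => exact ih.tail (h2.left C hC)

lemma Lk.right {A B : Matrix (Fin N) (Fin N) ℝ} (h : Lk A B) (C : Matrix (Fin N) (Fin N) ℝ)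
    (hC : C.det ≠ 0) : Lk (A * C) (B * C) := by
  induction h with
  | refl => exact Relation.ReflTransGen.refl
  | tail _ h2 ih => exact ih.tail (h2.right C hC)

lemma Lk.sign {A B : Matrix (Fin N) (Fin N) ℝ} (h : Lk A B) (hB : 0 < B.det) : 0 < A.det := by
  induction h using Relation.ReflTransGen.head_induction_on with
  | refl => exact hB
  | head h _ ih => exact h.sign ih

lemma Lk.mul {A B : Matrix (Fin N) (Fin N) ℝ} (hA : Lk 1 A) (hB : Lk 1 B) (hd : B.det ≠ 0) :
    Lk 1 (A * B) := by
  have h := hA.right B hd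
  rw [one_mul] at h
  exact hB.trans h

lemma lk_transvection {i j : Fin N} (hij : i ≠ j) (c : ℝ) : Lk 1 (transvection i j c) := by
  refine Relation.ReflTransGen.single ?_
  intro τ _ _
  have : (1 - τ) • (1 : Matrix (Fin N) (Fin N) ℝ) + τ • transvection i j c =
      transvection i j (τ * c) := by
    unfold transvection
    rw [smul_add, ← add_assoc, ← add_smul, sub_add_cancel, one_smul, smul_single, smul_eq_mul]
  rw [this, det_transvection_of_ne i j hij]
  exact one_ne_zero

/-- the diagonal matrix with entries `-1` in `T` -/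
def sg (T : Finset (Fin N)) : Matrix (Fin N) (Fin N) ℝ := diagonal fun k => if k ∈ T then -1 else 1

lemma sg_det (T : Finset (Fin N)) : (sg T).det ≠ 0 := by
  unfold sg
  rw [det_diagonal, Finset.prod_ne_zero_iff]
  intro i _
  split_ifs <;> norm_num

lemma sg_mul {T T' : Finset (Fin N)} (h : Disjoint T T') : sg T * sg T' = sg (T ∪ T') := by
  unfold sg
  rw [diagonal_mul_diagonal]
  congr 1
  funext k
  by_cases h1 : k ∈ T
  · have h2 : k ∉ T' := Finset.disjoint_left.1 h h1
    simp [h1, h2]
  · by_cases h2 : k ∈ T'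
    · simp [h1, h2]
    · simp [h1, h2]

lemma sg_sq (T : Finset (Fin N)) : sg T * sg T = 1 := by
  unfold sg
  rw [diagonal_mul_diagonal, ← diagonal_one]
  congr 1
  funext k
  split_ifs <;> norm_num

lemma ring_id {R : Type*} [Ring R] (E F : R) (hE : E * E = 0) (hF : F * F = 0)
    (hEF : E * F * E = E) (hFE : F * E * F = F) :
    ((1 + E) * (1 - F) * (1 + E)) * ((1 + E) * (1 - F) * (1 + E)) = 1 - 2 * (E * F + F * E) := by
  have h1 : (1 + E) * (1 - F) * (1 + E) = 1 - (E * F + F * E) + (E - F) := by
    have : (1 + E) * (1 - F) * (1 + E) = 1 + 2 * E - F - F * E + E * E - E * F - E * F * E := by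
      noncomm_ring
    rw [this, hE, hEF]
    noncomm_ring
  set P := E * F + F * E with hP
  have p1 : P * P = P := by
    have : P * P = E * F * E * F + E * (F * F) * E + F * (E * E) * F + F * E * F * E := by
      rw [hP]; noncomm_ring
    rw [this, hF, hE, hEF, hFE]
    simp [hP]
  have p2 : P * E = E := by
    have : P * E = E * F * E + F * (E * E) := by rw [hP]; noncomm_ring
    rw [this, hE, hEF]; simp
  have p3 : E * P = E := by
    have : E * P = (E * E) * F + E * F * E := by rw [hP]; noncomm_ring
    rw [this, hE, hEF]; simp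
  have p4 : P * F = F := by
    have : P * F = E * (F * F) + F * E * F := by rw [hP]; noncomm_ring
    rw [this, hF, hFE]; simp
  have p5 : F * P = F := by
    have : F * P = F * E * F + (F * F) * E := by rw [hP]; noncomm_ring
    rw [this, hF, hFE]; simp
  rw [h1]
  have : (1 - P + (E - F)) * (1 - P + (E - F)) = 1 - 2 * P + P * P + 2 * (E - F) - (P * E - P * F) -
      (E * P - F * P) + (E * E - P + F * F) := by
    rw [hP]; noncomm_ring
  rw [this, p1, p2, p3, p4, p5, hE, hF]
  noncomm_ring

lemma lk_pair {i j : Fin N} (hij : i ≠ j) : Lk 1 (sg ({i, j} : Finset (Fin N))) := by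
  have hE : (single i j (1 : ℝ)) * single i j 1 = 0 := single_mul_single_of_ne _ _ _ _ hij.symm _
  have hF : (single j i (1 : ℝ)) * single j i 1 = 0 := single_mul_single_of_ne _ _ _ _ hij _
  have e1 : (single i j (1 : ℝ)) * single j i 1 = single i i 1 := by
    rw [single_mul_single_same]; norm_num
  have e2 : (single j i (1 : ℝ)) * single i j 1 = single j j 1 := by
    rw [single_mul_single_same]; norm_num
  have hEF : (single i j (1 : ℝ)) * single j i 1 * single i j 1 = single i j 1 := by
    rw [e1, single_mul_single_same]; norm_num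
  have hFE : (single j i (1 : ℝ)) * single i j 1 * single j i 1 = single j i 1 := by
    rw [e2, single_mul_single_same]; norm_num
  have key := ring_id (single i j (1 : ℝ)) (single j i 1) hE hF hEF hFE
  rw [e1, e2] at key
  have h1 : (1 : Matrix (Fin N) (Fin N) ℝ) - 2 * (single i i 1 + single j j 1) = sg {i, j} := by
    ext a b
    unfold sg
    by_cases hab : a = b
    · subst hab
      by_cases ha : a = i
      · subst ha
        simp [two_mul, single_apply, hij, hij.symm]
      · by_cases ha' : a = j
        · subst ha'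
          simp [two_mul, single_apply, hij, hij.symm]
        · have h3 : i ≠ a := fun h => ha h.symm
          have h4 : j ≠ a := fun h => ha' h.symm
          simp [two_mul, single_apply, ha, ha', h3, h4]
    · have h5 : ∀ c : Fin N, ¬ (c = a ∧ c = b) := fun c h => hab (h.1.symm.trans h.2)
      simp [two_mul, single_apply, diagonal_apply_ne _ hab, one_apply_ne hab, h5]
  have h2 : (1 : Matrix (Fin N) (Fin N) ℝ) + single i j 1 = transvection i j 1 := rfl
  have h3 : (1 : Matrix (Fin N) (Fin N) ℝ) - single j i 1 = transvection j i (-1) := by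
    unfold transvection
    rw [sub_eq_add_neg]
    congr 1
    ext a b
    rw [Matrix.neg_apply, single_apply, single_apply]
    split_ifs <;> simp
  rw [h1, h2, h3] at key
  rw [← key]
  have d1 : (transvection i j (1 : ℝ)).det ≠ 0 := by
    rw [det_transvection_of_ne i j hij]; exact one_ne_zero
  have d2 : (transvection j i (-1 : ℝ)).det ≠ 0 := by
    rw [det_transvection_of_ne j i hij.symm]; exact one_ne_zero
  have l1 := ((lk_transvection hij 1).mul (lk_transvection hij.symm (-1)) d2).mul
    (lk_transvection hij 1) d1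
  refine l1.mul l1 ?_
  rw [det_mul, det_mul]
  exact mul_ne_zero (mul_ne_zero d1 d2) d1

variable [NeZero N]

/-- joined to `1` or to a reflection -/
def PP (M : Matrix (Fin N) (Fin N) ℝ) : Prop := Lk 1 M ∨ Lk (sg {0}) M

lemma PP.mul {A B : Matrix (Fin N) (Fin N) ℝ} (hA : PP A) (hB : PP B) (dB : B.det ≠ 0) :
    PP (A * B) := by
  rcases hA with hA | hA <;> rcases hB with hB | hB
  · exact Or.inl (hA.mul hB dB)
  · right
    have h := hA.right B dB
    rw [one_mul] at h
    exact hB.trans h
  · right
    have h1 := hB.left (sg {0}) (sg_det _)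
    rw [mul_one] at h1
    exact h1.trans (hA.right B dB)
  · left
    have h1 := hB.left (sg {0}) (sg_det _)
    rw [sg_sq] at h1
    exact h1.trans (hA.right B dB)

lemma pp_single (a : Fin N) : PP (sg {a}) := by
  by_cases ha : a = 0
  · subst ha
    exact Or.inr Relation.ReflTransGen.refl
  · right
    have h1 := (lk_pair (i := (0 : Fin N)) (j := a) (Ne.symm ha)).left (sg {0}) (sg_det _)
    rw [mul_one] at h1
    have h2 : sg ({0, a} : Finset (Fin N)) = sg {0} * sg {a} := by
      rw [sg_mul (Finset.disjoint_singleton.2 (Ne.symm ha))]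
      rfl
    rwa [h2, ← mul_assoc, sg_sq, one_mul] at h1

lemma pp_sg (T : Finset (Fin N)) : PP (sg T) := by
  induction T using Finset.induction_on with
  | empty =>
    left
    have : (sg (∅ : Finset (Fin N))) = 1 := by
      unfold sg
      simp
    rw [this]
  | insert a T ha ih =>
    have h1 : sg (insert a T) = sg {a} * sg T := by
      rw [sg_mul (Finset.disjoint_singleton_left.2 ha), ← Finset.insert_eq]
    rw [h1]
    exact (pp_single a).mul ih (sg_det T)

lemma pp_diag (D : Fin N → ℝ) (hD : (diagonal D).det ≠ 0) : PP (diagonal D) := by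
  rw [det_diagonal, Finset.prod_ne_zero_iff] at hD
  have h1 : diagonal D = sg (Finset.univ.filter fun k => D k < 0) * diagonal fun k => |D k| := by
    unfold sg
    rw [diagonal_mul_diagonal]
    congr 1
    funext k
    by_cases h : D k < 0
    · simp [h, abs_of_neg h]
    · simp [h, abs_of_nonneg (not_lt.1 h)]
  have h2 : (diagonal fun k => |D k|).det ≠ 0 := by
    rw [det_diagonal, Finset.prod_ne_zero_iff]
    intro i hi
    exact abs_ne_zero.2 (hD i hi)
  rw [h1]
  refine (pp_sg _).mul (Or.inl (Relation.ReflTransGen.single ?_)) h2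
  intro τ h0 h3
  have h4 : (1 - τ) • (1 : Matrix (Fin N) (Fin N) ℝ) + τ • (diagonal fun k => |D k|) =
      diagonal fun k => (1 - τ) + τ * |D k| := by
    rw [← diagonal_one, ← diagonal_smul, ← diagonal_smul, diagonal_add]
    congr 1
    funext k
    simp
  rw [h4, det_diagonal, Finset.prod_ne_zero_iff]
  intro i hi
  have h5 : 0 < |D i| := abs_pos.2 (hD i hi)
  have : 0 < (1 - τ) + τ * |D i| := by
    rcases eq_or_lt_of_le h0 with h | h
    · rw [← h]; norm_num
    · have := mul_pos h h5
      linarith
  exact this.ne'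

theorem pp_all (M : Matrix (Fin N) (Fin N) ℝ) (hM : M.det ≠ 0) : PP M :=
  Matrix.diagonal_transvection_induction_of_det_ne_zero PP M hM pp_diag
    (fun t => Or.inl (lk_transvection t.hij t.c)) fun _ _ _ hB hA hB' => hA.mul hB' hB

/-- **matrices of positive determinant are joined to the identity by segments** -/
theorem lk_of_pos (M : Matrix (Fin N) (Fin N) ℝ) (hM : 0 < M.det) : Lk 1 M := by
  rcases pp_all M hM.ne' with h | h
  · exact h
  · exfalso
    have h1 := h.sign hM
    unfold sg at h1
    rw [det_diagonal] at h1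
    have h2 : (∏ k : Fin N, if k ∈ ({0} : Finset (Fin N)) then (-1 : ℝ) else 1) = -1 := by
      rw [Finset.prod_eq_single (0 : Fin N)]
      · simp
      · intro b _ hb
        simp [hb]
      · simp
    rw [h2] at h1
    linarith

end Pool.Agent.Q196.NP
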