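import Pool.Agent.Q196.NP.Ker

/-!
# Homogeneous maps, their mollification and smooth paths of homogeneous local diffeomorphisms
-/

set_option autoImplicit false

open Set Filter Topology Metric Function MeasureTheory
open scoped ContDiff

noncomputable section

namespace Pool.Agent.Q196.NP

variable {W : Type*} [NormedAddCommGroup W] [InnerProductSpace ℝ W] [FiniteDimensional ℝ W]

/-- a linear endomorphism close to the identity, after a linear map, is bijective -/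
lemma equiv_of_near {D L : W →L[ℝ] W} {c : ℝ} (hc : c < 1)
    (h : ∀ v, ‖L (D v) - v‖ ≤ c * ‖v‖) : ∃ A : W ≃L[ℝ] W, (A : W →L[ℝ] W) = D := by
  have hinj : Injective D := by
    rw [injective_iff_map_eq_zero]
    intro v hv
    have h1 := h v
    rw [hv, map_zero, zero_sub, norm_neg] at h1
    have h2 : ‖v‖ ≤ 0 := by
      by_contra h3
      push Not at h3
      nlinarith
    exact norm_le_zero_iff.1 h2
  have hsurj : Surjective D := by
    have := (LinearMap.injective_iff_surjective (f := (D : W →ₗ[ℝ] W))).1 hinj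
    exact this
  exact ⟨ContinuousLinearEquiv.ofBijective D (LinearMap.ker_eq_bot.2 hinj)
    (LinearMap.range_eq_top.2 hsurj), by ext v : 1; rfl⟩

/-- homogeneous, equivariant, and a local diffeomorphism off the origin -/
structure HD (G : Set (W ≃ₗᵢ[ℝ] W)) (f : W → W) : Prop where
  hom : ∀ r : ℝ, 0 ≤ r → ∀ v, f (r • v) = r • f v
  equi : ∀ R ∈ G, ∀ v, f (R v) = R (f v)
  der : ∀ v, v ≠ 0 → ∃ A : W ≃L[ℝ] W, HasFDerivAt f (A : W →L[ℝ] W) v

omit [FiniteDimensional ℝ W] in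
theorem der_of_unit {f : W → W} (hom : ∀ r : ℝ, 0 ≤ r → ∀ v, f (r • v) = r • f v)
    (h : ∀ v, ‖v‖ = 1 → ∃ A : W ≃L[ℝ] W, HasFDerivAt f (A : W →L[ℝ] W) v) (v : W) (hv : v ≠ 0) :
    ∃ A : W ≃L[ℝ] W, HasFDerivAt f (A : W →L[ℝ] W) v := by
  have hc : 0 < ‖v‖ := norm_pos_iff.2 hv
  obtain ⟨A, hA⟩ := h (‖v‖⁻¹ • v) (by
    rw [norm_smul, norm_inv, norm_norm, inv_mul_cancel₀ hc.ne'])
  refine ⟨A, ?_⟩
  have h1 : HasFDerivAt (fun x : W => ‖v‖⁻¹ • x) (‖v‖⁻¹ • ContinuousLinearMap.id ℝ W) v :=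
    (hasFDerivAt_id v).const_smul _
  have h2 := (hA.comp v h1).const_smul ‖v‖
  have h3 : (fun x => ‖v‖ • (f ∘ fun x : W => ‖v‖⁻¹ • x) x) = f := by
    funext x
    show ‖v‖ • f (‖v‖⁻¹ • x) = f x
    rw [← hom _ hc.le, smul_smul, mul_inv_cancel₀ hc.ne', one_smul]
  have h4 : ‖v‖ • ((A : W →L[ℝ] W).comp (‖v‖⁻¹ • ContinuousLinearMap.id ℝ W)) =
      (A : W →L[ℝ] W) := by
    ext x
    simp [smul_smul, mul_inv_cancel₀ hc.ne']
  have h5 : HasFDerivAt (fun x => ‖v‖ • (f ∘ fun x : W => ‖v‖⁻¹ • x) x)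
      (‖v‖ • ((A : W →L[ℝ] W).comp (‖v‖⁻¹ • ContinuousLinearMap.id ℝ W))) v := h2
  rwa [h3, h4] at h5

/-- smooth path of homogeneous local diffeomorphisms, constant for `t ≤ 0` and for `t ≥ 1` -/
def Iso (G : Set (W ≃ₗᵢ[ℝ] W)) (f g : W → W) : Prop :=
  ∃ Φ : ℝ → W → W, ContDiffOn ℝ ∞ (uncurry Φ) (univ ×ˢ {0}ᶜ) ∧ (∀ t, HD G (Φ t)) ∧
    (∀ t, t ≤ 0 → Φ t = f) ∧ ∀ t, 1 ≤ t → Φ t = g

omit [FiniteDimensional ℝ W] in
theorem Iso.symm {G : Set (W ≃ₗᵢ[ℝ] W)} {f g : W → W} (h : Iso G f g) : Iso G g f := by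
  obtain ⟨Φ, hs, hL, h0, h1⟩ := h
  refine ⟨fun t => Φ (1 - t), ?_, fun t => hL _,
    fun t ht => h1 _ (by linarith), fun t ht => h0 _ (by linarith)⟩
  refine hs.comp (((contDiff_const.sub contDiff_fst).prodMk contDiff_snd).contDiffOn) ?_
  rintro ⟨t, x⟩ ⟨-, hx⟩
  exact ⟨mem_univ _, hx⟩

omit [FiniteDimensional ℝ W] in
theorem Iso.trans {G : Set (W ≃ₗᵢ[ℝ] W)} {f g k : W → W} (h : Iso G f g) (h' : Iso G g k) :
    Iso G f k := by
  obtain ⟨Φ, hs, hL, h0, h1⟩ := h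
  obtain ⟨Φ', hs', hL', h0', h1'⟩ := h'
  have hgs : ContDiffOn ℝ ∞ g {0}ᶜ := by
    have h2 : ContDiffOn ℝ ∞ (fun x : W => uncurry Φ (1, x)) {0}ᶜ :=
      hs.comp (contDiff_const.prodMk contDiff_id).contDiffOn fun x hx => ⟨mem_univ _, hx⟩
    have h3 : (fun x : W => uncurry Φ (1, x)) = g := h1 1 le_rfl
    rwa [h3] at h2
  have e1 : ∀ t, t ≤ 1 / 2 → (fun x => Φ (2 * t) x + Φ' (2 * t - 1) x - g x) = Φ (2 * t) := by
    intro t ht
    funext x
    rw [h0' (2 * t - 1) (by linarith)]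
    abel
  have e2 : ∀ t, 1 / 2 ≤ t → (fun x => Φ (2 * t) x + Φ' (2 * t - 1) x - g x) = Φ' (2 * t - 1) := by
    intro t ht
    funext x
    rw [h1 (2 * t) (by linarith)]
    abel
  refine ⟨fun t x => Φ (2 * t) x + Φ' (2 * t - 1) x - g x, ?_, ?_, ?_, ?_⟩
  · have a1 : ContDiffOn ℝ ∞ (fun p : ℝ × W => uncurry Φ (2 * p.1, p.2)) (univ ×ˢ {0}ᶜ) :=
      hs.comp ((contDiff_const.mul contDiff_fst).prodMk contDiff_snd).contDiffOn
        fun p hp => ⟨mem_univ _, hp.2⟩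
    have a2 : ContDiffOn ℝ ∞ (fun p : ℝ × W => uncurry Φ' (2 * p.1 - 1, p.2)) (univ ×ˢ {0}ᶜ) :=
      hs'.comp (((contDiff_const.mul contDiff_fst).sub contDiff_const).prodMk
        contDiff_snd).contDiffOn fun p hp => ⟨mem_univ _, hp.2⟩
    exact (a1.add a2).sub (hgs.comp contDiff_snd.contDiffOn fun p hp => hp.2)
  · intro t
    show HD G (fun x => Φ (2 * t) x + Φ' (2 * t - 1) x - g x)
    rcases le_total t (1 / 2) with ht | ht
    · rw [e1 t ht]; exact hL _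
    · rw [e2 t ht]; exact hL' _
  · intro t ht
    exact (e1 t (by linarith)).trans (h0 _ (by linarith))
  · intro t ht
    exact (e2 t (by linarith)).trans (h1' _ (by linarith))

omit [FiniteDimensional ℝ W] in
/-- paths along segments -/
theorem Iso.straight {G : Set (W ≃ₗᵢ[ℝ] W)} {f g : W → W}
    (hf : ContDiffOn ℝ ∞ f {0}ᶜ) (hg : ContDiffOn ℝ ∞ g {0}ᶜ) (hfH : HD G f) (hgH : HD G g)
    (hL : ∀ τ : ℝ, 0 ≤ τ → τ ≤ 1 → ∀ x, ‖x‖ = 1 → ∃ A : W ≃L[ℝ] W,
      HasFDerivAt (fun x => (1 - τ) • f x + τ • g x) (A : W →L[ℝ] W) x) :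
    Iso G f g := by
  have hχ : ContDiff ℝ ∞ Real.smoothTransition := Real.smoothTransition.contDiff
  refine ⟨fun t x => (1 - Real.smoothTransition t) • f x + Real.smoothTransition t • g x,
    ?_, ?_, ?_, ?_⟩
  · have a1 : ContDiffOn ℝ ∞ (fun p : ℝ × W => Real.smoothTransition p.1) (univ ×ˢ {0}ᶜ) :=
      (hχ.comp contDiff_fst).contDiffOn
    exact ((contDiffOn_const.sub a1).smul (hf.comp contDiff_snd.contDiffOn fun p hp => hp.2)).add
      (a1.smul (hg.comp contDiff_snd.contDiffOn fun p hp => hp.2))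
  · intro t
    have hhom : ∀ r : ℝ, 0 ≤ r → ∀ v, (fun x => (1 - Real.smoothTransition t) • f x +
        Real.smoothTransition t • g x) (r • v) = r • (fun x => (1 - Real.smoothTransition t) • f x +
        Real.smoothTransition t • g x) v := by
      intro r hr v
      show (1 - Real.smoothTransition t) • f (r • v) + Real.smoothTransition t • g (r • v) =
        r • ((1 - Real.smoothTransition t) • f v + Real.smoothTransition t • g v)
      rw [hfH.hom r hr, hgH.hom r hr, smul_add, smul_comm r, smul_comm r]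
    refine ⟨hhom, ?_, ?_⟩
    · intro R hR v
      show (1 - Real.smoothTransition t) • f (R v) + Real.smoothTransition t • g (R v) =
        R ((1 - Real.smoothTransition t) • f v + Real.smoothTransition t • g v)
      rw [hfH.equi R hR, hgH.equi R hR, map_add, map_smul, map_smul]
    · exact der_of_unit hhom (hL _ (Real.smoothTransition.nonneg t)
        (Real.smoothTransition.le_one t))
  · intro t ht
    funext x
    simp only [Real.smoothTransition.zero_of_nonpos ht]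
    simp
  · intro t ht
    funext x
    simp only [Real.smoothTransition.one_of_one_le ht]
    simp

variable [MeasurableSpace W] [BorelSpace W]

/-- the constant of the theorem -/
def eps (W : Type*) [NormedAddCommGroup W] [InnerProductSpace ℝ W] [FiniteDimensional ℝ W]
    [MeasurableSpace W] [BorelSpace W] : ℝ := 1 / (4 * (ck W + 1))

lemma eps_pos : 0 < eps W := by
  unfold eps
  have : 0 ≤ ck W := ck_nonneg
  positivity

lemma ck_eps : 2 * eps W + 2 * (ck W * eps W) ≤ 1 / 2 := by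
  unfold eps
  have h : 0 ≤ ck W := ck_nonneg
  have h2 : 0 < ck W + 1 := by linarith
  have : 2 * (1 / (4 * (ck W + 1))) + 2 * (ck W * (1 / (4 * (ck W + 1)))) = 1 / 2 := by
    field_simp
    ring
  rw [this]

lemma MS_isom {F : W → W} (R : W ≃ₗᵢ[ℝ] W) (h : ∀ v, F (R v) = R (F v)) {s : ℝ} (hs : 0 < s)
    (x : W) : MS s F (R x) = R (MS s F x) := by
  rw [← MM_eq hs.ne']
  show (∫ t, kr t • F (R x - s • t)) = R (∫ t, kr t • F (x - s • t))
  have h1 := (R.measurePreserving (E := W) (F := W)).integral_comp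
    R.toHomeomorph.measurableEmbedding (fun t => kr t • F (R x - s • t))
  rw [← h1]
  have h2 : (fun t : W => kr (R t) • F (R x - s • R t)) = fun t => R (kr t • F (x - s • t)) := by
    funext t
    rw [kr_isom, ← map_smul R s t, ← map_sub, h, ← map_smul]
  rw [h2]
  exact R.toContinuousLinearEquiv.integral_comp_comm _

/-- homogeneous extension of the mollification -/
def Gs (s : ℝ) (F : W → W) (v : W) : W := ‖v‖ • MS s F (‖v‖⁻¹ • v)

lemma Gs_hom (s : ℝ) (F : W → W) (r : ℝ) (hr : 0 ≤ r) (v : W) : Gs s F (r • v) = r • Gs s F v := by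
  rcases hr.eq_or_lt with rfl | hr
  · unfold Gs
    simp
  · unfold Gs
    have h1 : (r * ‖v‖)⁻¹ • r • v = ‖v‖⁻¹ • v := by
      rw [smul_smul, mul_inv, mul_right_comm, inv_mul_cancel₀ hr.ne', one_mul]
    rw [norm_smul, Real.norm_of_nonneg hr.le, h1, mul_smul]

lemma Gs_equi {s : ℝ} (hs : 0 < s) {F : W → W} {G : Set (W ≃ₗᵢ[ℝ] W)}
    (hF : ∀ R ∈ G, ∀ v, F (R v) = R (F v)) (R : W ≃ₗᵢ[ℝ] W) (hR : R ∈ G) (v : W) :
    Gs s F (R v) = R (Gs s F v) := by
  unfold Gs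
  rw [R.norm_map, ← map_smul R, MS_isom R (hF R hR) hs, ← map_smul R]

omit [FiniteDimensional ℝ W] [MeasurableSpace W] [BorelSpace W] in
lemma norm_contDiffOn : ContDiffOn ℝ ∞ (fun v : W => ‖v‖) {0}ᶜ :=
  fun v hv => (contDiffAt_norm ℝ (by exact hv)).contDiffWithinAt

omit [FiniteDimensional ℝ W] [MeasurableSpace W] [BorelSpace W] in
lemma dir_contDiffOn : ContDiffOn ℝ ∞ (fun v : W => ‖v‖⁻¹ • v) {0}ᶜ :=
  (norm_contDiffOn.inv fun v (hv : v ≠ 0) => norm_ne_zero_iff.2 hv).smul contDiffOn_id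

lemma Gs_smooth {F : W → W} (hF : Continuous F) {s : ℝ} (hs : 0 < s) :
    ContDiffOn ℝ ∞ (Gs s F) {0}ᶜ :=
  norm_contDiffOn.smul ((MS_smooth hF.locallyIntegrable hs).comp_contDiffOn dir_contDiffOn)

/-- the derivative of the homogeneous extension at a unit vector -/
def Dh (a : W) (P : W →L[ℝ] W) (v : W) : W →L[ℝ] W :=
  (innerSL ℝ v).smulRight a + P.comp (ContinuousLinearMap.id ℝ W - (innerSL ℝ v).smulRight v)

omit [FiniteDimensional ℝ W] [MeasurableSpace W] [BorelSpace W] in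
lemma Dh_apply (a : W) (P : W →L[ℝ] W) (v h : W) :
    Dh a P v h = (inner ℝ v h) • a + P (h - (inner ℝ v h) • v) := rfl

omit [FiniteDimensional ℝ W] [MeasurableSpace W] [BorelSpace W] in
lemma norm_deriv {v : W} (hv : ‖v‖ = 1) : HasFDerivAt (fun x : W => ‖x‖) (innerSL ℝ v) v := by
  have h1 : HasFDerivAt (fun x : W => ‖x‖ ^ 2) (2 • (innerSL ℝ v)) v :=
    (hasStrictFDerivAt_norm_sq v).hasFDerivAt
  have h2 := h1.sqrt (by rw [hv]; norm_num)
  have h3 : (fun x : W => √(‖x‖ ^ 2)) = fun x => ‖x‖ := by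
    funext x
    exact Real.sqrt_sq (norm_nonneg _)
  rw [h3] at h2
  refine h2.congr_fderiv ?_
  ext x
  rw [hv]
  simp

omit [FiniteDimensional ℝ W] [MeasurableSpace W] [BorelSpace W] in
lemma hom_deriv {g : W → W} {P : W →L[ℝ] W} {v : W} (hv : ‖v‖ = 1) (hg : HasFDerivAt g P v) :
    HasFDerivAt (fun x : W => ‖x‖ • g (‖x‖⁻¹ • x)) (Dh (g v) P v) v := by
  have h1 := norm_deriv hv
  have h2 : HasFDerivAt (fun x : W => ‖x‖⁻¹) (-(innerSL ℝ v)) v := by
    have h := (hasDerivAt_inv (x := ‖v‖) (by rw [hv]; norm_num)).comp_hasFDerivAt v h1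
    refine h.congr_fderiv ?_
    ext x
    simp [hv]
  have h3 : HasFDerivAt (fun x : W => ‖x‖⁻¹ • x)
      (ContinuousLinearMap.id ℝ W - (innerSL ℝ v).smulRight v) v := by
    have h := h2.smul (hasFDerivAt_id v)
    refine h.congr_fderiv ?_
    ext x
    simp [hv, sub_eq_add_neg]
  have hv1 : ‖v‖⁻¹ • v = v := by rw [hv, inv_one, one_smul]
  have h4 : HasFDerivAt (fun x : W => g (‖x‖⁻¹ • x))
      (P.comp (ContinuousLinearMap.id ℝ W - (innerSL ℝ v).smulRight v)) v := by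
    have hg' : HasFDerivAt g P (‖v‖⁻¹ • v) := by rwa [hv1]
    exact HasFDerivAt.comp (f := fun x : W => ‖x‖⁻¹ • x) v hg' h3
  have h5 := h1.smul h4
  refine h5.congr_fderiv ?_
  ext x
  rw [Dh_apply]
  simp [hv]
  abel

lemma Gs_deriv {F : W → W} (hF : Continuous F) {s : ℝ} (hs : 0 < s) {v : W} (hv : ‖v‖ = 1) :
    HasFDerivAt (Gs s F) (Dh (MS s F v) (fderiv ℝ (MS s F) v) v) v :=
  hom_deriv hv (((MS_smooth hF.locallyIntegrable hs).differentiable (by simp) v).hasFDerivAt)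

/-- close to linear at the scale `r` around `v` -/
def Near (ε : ℝ) (F : W → W) (v : W) (r : ℝ) : Prop :=
  ∃ L : W →L[ℝ] W, ∀ w, ‖w‖ ≤ r → ‖L (F (v + w) - F v) - w‖ ≤ ε * r

lemma Gs_equiv {F : W → W} (hF : Continuous F)
    (hom : ∀ r : ℝ, 0 ≤ r → ∀ v, F (r • v) = r • F v) {s : ℝ} (hs : 0 < s) (hs1 : s ≤ 1)
    {v : W} (hv : ‖v‖ = 1) (hn : Near (eps W) F v s) :
    ∃ A : W ≃L[ℝ] W, (A : W →L[ℝ] W) = Dh (MS s F v) (fderiv ℝ (MS s F) v) v := by
  obtain ⟨L, hL⟩ := hn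
  obtain ⟨k1, k2⟩ := MS_near hF.locallyIntegrable hs hL
  have he := eps_pos (W := W)
  have e0 : ‖L (F v) - v‖ ≤ eps W := by
    have h1 := hL (-(s • v)) (by rw [norm_neg, norm_smul, hv, Real.norm_of_nonneg hs.le, mul_one])
    have h2 : F (v + -(s • v)) = (1 - s) • F v := by
      rw [← hom (1 - s) (by linarith)]
      congr 1
      rw [sub_smul, one_smul, sub_eq_add_neg]
    rw [h2] at h1
    have h3 : L ((1 - s) • F v - F v) - -(s • v) = -(s • (L (F v) - v)) := by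
      rw [sub_smul, one_smul, sub_sub_cancel_left, map_neg, map_smul, smul_sub]
      abel
    rw [h3, norm_neg, norm_smul, Real.norm_of_nonneg hs.le] at h1
    have h4 : s * ‖L (F v) - v‖ ≤ s * eps W := by linarith
    exact le_of_mul_le_mul_left h4 hs
  have e1 : ‖L (MS s F v) - v‖ ≤ 2 * eps W := by
    have h1 : L (MS s F v) - v = L (MS s F v - F v) + (L (F v) - v) := by
      rw [map_sub]
      abel
    rw [h1]
    calc ‖L (MS s F v - F v) + (L (F v) - v)‖ ≤ eps W * s + eps W :=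
          (norm_add_le _ _).trans (add_le_add k2 e0)
      _ ≤ 2 * eps W := by nlinarith
  refine equiv_of_near (L := L) (c := 1 / 2) (by norm_num) fun h => ?_
  have hin : |(inner ℝ v h : ℝ)| ≤ ‖h‖ := by
    have := abs_real_inner_le_norm v h
    rwa [hv, one_mul] at this
  have hh : ‖h - (inner ℝ v h : ℝ) • v‖ ≤ 2 * ‖h‖ := by
    calc ‖h - (inner ℝ v h : ℝ) • v‖ ≤ ‖h‖ + ‖(inner ℝ v h : ℝ) • v‖ := norm_sub_le _ _
      _ = ‖h‖ + |(inner ℝ v h : ℝ)| := by rw [norm_smul, hv, mul_one, Real.norm_eq_abs]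
      _ ≤ 2 * ‖h‖ := by linarith
  have h1 : L (Dh (MS s F v) (fderiv ℝ (MS s F) v) v h) - h =
      (inner ℝ v h : ℝ) • (L (MS s F v) - v) +
      (L (fderiv ℝ (MS s F) v (h - (inner ℝ v h : ℝ) • v)) - (h - (inner ℝ v h : ℝ) • v)) := by
    rw [Dh_apply, map_add, map_smul, smul_sub]
    abel
  rw [h1]
  have h2 := k1 (h - (inner ℝ v h : ℝ) • v)
  have h3 : ‖(inner ℝ v h : ℝ) • (L (MS s F v) - v)‖ ≤ ‖h‖ * (2 * eps W) := by
    rw [norm_smul, Real.norm_eq_abs]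
    exact mul_le_mul hin e1 (norm_nonneg _) (norm_nonneg _)
  have h4 : ck W * eps W * ‖h - (inner ℝ v h : ℝ) • v‖ ≤ ck W * eps W * (2 * ‖h‖) :=
    mul_le_mul_of_nonneg_left hh (mul_nonneg ck_nonneg he.le)
  refine (norm_add_le _ _).trans ((add_le_add h3 (h2.trans h4)).trans ?_)
  have h5 := ck_eps (W := W)
  nlinarith [norm_nonneg h]

theorem Gs_HD {F : W → W} (hF : Continuous F) {G : Set (W ≃ₗᵢ[ℝ] W)}
    (hom : ∀ r : ℝ, 0 ≤ r → ∀ v, F (r • v) = r • F v) (hG : ∀ R ∈ G, ∀ v, F (R v) = R (F v))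
    {s : ℝ} (hs : 0 < s) (hs1 : s ≤ 1) (hn : ∀ v, ‖v‖ = 1 → Near (eps W) F v s) :
    HD G (Gs s F) := by
  refine ⟨Gs_hom s F, Gs_equi hs hG, der_of_unit (Gs_hom s F) fun v hv => ?_⟩
  obtain ⟨A, hA⟩ := Gs_equiv hF hom hs hs1 hv (hn v hv)
  exact ⟨A, by rw [hA]; exact Gs_deriv hF hs hv⟩

end Pool.Agent.Q196.NP
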