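import Mathlib

/-!
# A radial mollifier and maps which are close to linear at one scale

(The estimates follow `Q235/NL/Ker.lean` of helper235; here in any finite dimensional inner product
space and with a radial kernel.)
-/

set_option autoImplicit false

open Set Filter Topology Metric Function MeasureTheory
open scoped ContDiff Convolution

noncomputable section

namespace Pool.Agent.Q196.NP

variable {W : Type*} [NormedAddCommGroup W] [InnerProductSpace ℝ W] [FiniteDimensional ℝ W]
  [MeasurableSpace W] [BorelSpace W]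

omit [FiniteDimensional ℝ W] [MeasurableSpace W] [BorelSpace W] in
/-- radial bump -/
def k0 (t : W) : ℝ := Real.smoothTransition (1 - ‖t‖ ^ 2)

omit [FiniteDimensional ℝ W] [MeasurableSpace W] [BorelSpace W] in
lemma k0_smooth : ContDiff ℝ ∞ (k0 : W → ℝ) :=
  Real.smoothTransition.contDiff.comp (contDiff_const.sub (contDiff_norm_sq ℝ))

omit [FiniteDimensional ℝ W] [MeasurableSpace W] [BorelSpace W] in
lemma k0_nonneg (t : W) : 0 ≤ k0 t := Real.smoothTransition.nonneg _

omit [FiniteDimensional ℝ W] [MeasurableSpace W] [BorelSpace W] in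
lemma k0_zero {t : W} (ht : 1 ≤ ‖t‖) : k0 t = 0 :=
  Real.smoothTransition.zero_of_nonpos (by nlinarith)

omit [FiniteDimensional ℝ W] [MeasurableSpace W] [BorelSpace W] in
lemma k0_origin : k0 (0 : W) = 1 := by
  unfold k0
  rw [norm_zero]
  norm_num [Real.smoothTransition.one_of_one_le]

omit [MeasurableSpace W] [BorelSpace W] in
lemma k0_cs : HasCompactSupport (k0 : W → ℝ) := by
  refine HasCompactSupport.intro (isCompact_closedBall (0 : W) 1) fun x hx => ?_
  rw [mem_closedBall_zero_iff, not_le] at hx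
  exact k0_zero hx.le

lemma k0_int : Integrable (k0 : W → ℝ) :=
  k0_smooth.continuous.integrable_of_hasCompactSupport k0_cs

lemma k0_pos : 0 < ∫ t : W, k0 t := by
  refine k0_smooth.continuous.integral_pos_of_hasCompactSupport_nonneg_nonzero k0_cs
    (fun t => k0_nonneg t) (x := 0) ?_
  rw [k0_origin]
  exact one_ne_zero

/-- the radial kernel -/
def kr (t : W) : ℝ := (∫ s : W, k0 s)⁻¹ * k0 t

lemma kr_smooth : ContDiff ℝ ∞ (kr : W → ℝ) := contDiff_const.mul k0_smooth

lemma kr_nonneg (t : W) : 0 ≤ kr t := mul_nonneg (inv_nonneg.2 k0_pos.le) (k0_nonneg t)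

lemma kr_zero {t : W} (ht : 1 ≤ ‖t‖) : kr t = 0 := by
  unfold kr
  rw [k0_zero ht, mul_zero]

lemma kr_neg (t : W) : kr (-t) = kr t := by
  unfold kr k0
  rw [norm_neg]

lemma kr_isom (R : W ≃ₗᵢ[ℝ] W) (t : W) : kr (R t) = kr t := by
  unfold kr k0
  rw [R.norm_map]

lemma kr_integrable : Integrable (kr : W → ℝ) := k0_int.const_mul _

lemma kr_int : ∫ t : W, kr t = 1 := by
  unfold kr
  rw [integral_const_mul]
  exact inv_mul_cancel₀ k0_pos.ne'

lemma kr_hasCompactSupport : HasCompactSupport (kr : W → ℝ) := k0_cs.mul_left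

lemma kr_diff : Differentiable ℝ (kr : W → ℝ) := kr_smooth.differentiable (by simp)

/-- the constant of the kernel -/
def ck (W : Type*) [NormedAddCommGroup W] [InnerProductSpace ℝ W] [FiniteDimensional ℝ W]
    [MeasurableSpace W] [BorelSpace W] : ℝ := ∫ t : W, ‖fderiv ℝ (kr : W → ℝ) t‖

lemma fderiv_kr_cont : Continuous (fderiv ℝ (kr : W → ℝ)) := kr_smooth.continuous_fderiv (by simp)

lemma fderiv_kr_cs : HasCompactSupport (fderiv ℝ (kr : W → ℝ)) :=
  kr_hasCompactSupport.fderiv ℝ

lemma fderiv_kr_int : Integrable (fderiv ℝ (kr : W → ℝ)) :=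
  fderiv_kr_cont.integrable_of_hasCompactSupport fderiv_kr_cs

lemma ck_nonneg : 0 ≤ ck W := integral_nonneg fun _ => norm_nonneg _

lemma fderiv_kr_zero {t : W} (ht : 1 < ‖t‖) : fderiv ℝ (kr : W → ℝ) t = 0 := by
  have h1 : ∀ᶠ y in 𝓝 t, 1 < ‖y‖ := continuous_norm.continuousAt.eventually (lt_mem_nhds ht)
  have h2 : kr =ᶠ[𝓝 t] fun _ => 0 := by
    filter_upwards [h1] with y hy
    exact kr_zero hy.le
  rw [h2.fderiv_eq]
  simp

/-- integration by parts against the identity -/
lemma int_fderiv_id (v : W) : ∫ t : W, (fderiv ℝ (kr : W → ℝ) t v) • t = - v := by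
  have hc1 : Continuous fun t : W => fderiv ℝ (kr : W → ℝ) t v := fderiv_kr_cont.clm_apply continuous_const
  have hcs1 : HasCompactSupport fun t : W => fderiv ℝ (kr : W → ℝ) t v := by
    refine fderiv_kr_cs.mono fun t ht => ?_
    intro h0
    exact ht (by simp [h0])
  have h := integral_smul_fderiv_eq_neg_fderiv_smul_of_integrable (μ := (volume : Measure (W)))
    (f := kr) (g := fun t : W => t) (v := v)
    ((hc1.smul continuous_id).integrable_of_hasCompactSupport (hcs1.smul_right))
    (by
      have : (fun t : W => kr t • fderiv ℝ (fun t : W => t) t v) = fun t => kr t • v := by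
        funext t
        rw [fderiv_fun_id]
        rfl
      rw [this]
      exact kr_integrable.smul_const v)
    ((kr_smooth.continuous.smul continuous_id).integrable_of_hasCompactSupport
      (kr_hasCompactSupport.smul_right))
    (fun t _ => kr_diff t) (fun t _ => differentiableAt_id)
  have h2 : (∫ t : W, kr t • fderiv ℝ (fun t : W => t) t v) = v := by
    have : (fun t : W => kr t • fderiv ℝ (fun t : W => t) t v) = fun t => kr t • v := by
      funext t
      rw [fderiv_fun_id]
      rfl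
    rw [this, integral_smul_const, kr_int, one_smul]
  rw [h2] at h
  have h3 := congrArg Neg.neg h
  rw [neg_neg] at h3
  exact h3.symm

lemma int_fderiv_const (v : W) : ∫ t : W, fderiv ℝ (kr : W → ℝ) t v = 0 := by
  have hc1 : Continuous fun t : W => fderiv ℝ (kr : W → ℝ) t v := fderiv_kr_cont.clm_apply continuous_const
  have hcs1 : HasCompactSupport fun t : W => fderiv ℝ (kr : W → ℝ) t v := by
    refine fderiv_kr_cs.mono fun t ht => ?_
    intro h0
    exact ht (by simp [h0])
  have h := integral_smul_fderiv_eq_neg_fderiv_smul_of_integrable (μ := (volume : Measure (W)))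
    (f := kr) (g := fun _ : W => (1:ℝ)) (v := v)
    (by simpa using hc1.integrable_of_hasCompactSupport hcs1)
    (by simp)
    (by simpa using kr_integrable)
    (fun t _ => kr_diff t) (fun t _ => differentiableAt_const _)
  simpa using h.symm

lemma int_kr_id : ∫ t : W, kr t • t = 0 := by
  have h := integral_neg_eq_self (fun t : W => kr t • t) volume
  have h2 : (∫ t : W, kr (-t) • (-t)) = - ∫ t : W, kr t • t := by
    rw [← integral_neg]
    congr 1
    funext t
    rw [kr_neg, smul_neg]
  rw [h2] at h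
  have h3 : (2 : ℝ) • ∫ t : W, kr t • t = 0 := by
    rw [two_smul]
    nth_rewrite 1 [← h]
    simp
  exact (smul_eq_zero.1 h3).resolve_left (by norm_num)

/-- the mollification at scale one -/
def M1 (F : W → W) : W → W := kr ⋆[ContinuousLinearMap.lsmul ℝ ℝ, volume] F

lemma M1_smooth {F : W → W} (hF : LocallyIntegrable F volume) : ContDiff ℝ ∞ (M1 F) :=
  kr_hasCompactSupport.contDiff_convolution_left (ContinuousLinearMap.lsmul ℝ ℝ) kr_smooth hF

lemma M1_hasFDerivAt {F : W → W} (hF : LocallyIntegrable F volume) (x : W) :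
    ∃ D : W →L[ℝ] W, HasFDerivAt (M1 F) D x ∧
      ∀ v, D v = ∫ t, (fderiv ℝ (kr : W → ℝ) t v) • F (x - t) := by
  have h := kr_hasCompactSupport.hasFDerivAt_convolution_left (ContinuousLinearMap.lsmul ℝ ℝ)
    (kr_smooth.of_le (by simp) : ContDiff ℝ 1 (kr : W → ℝ)) hF x
  refine ⟨_, h, fun v => ?_⟩
  have hex : ConvolutionExistsAt (fderiv ℝ (kr : W → ℝ)) F x
      ((ContinuousLinearMap.lsmul ℝ ℝ : ℝ →L[ℝ] W →L[ℝ] W).precompL (W)) volume :=
    fderiv_kr_cs.convolutionExists_left _ fderiv_kr_cont hF x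
  rw [convolution_def]
  rw [ContinuousLinearMap.integral_apply hex.integrable]
  congr 1

lemma M1_apply (F : W → W) (x : W) : M1 F x = ∫ t, kr t • F (x - t) := rfl

/-- a map close to linear on the unit ball around `x` -/
theorem M1_near {F : W → W} (hF : LocallyIntegrable F volume) {x : W} {L : W →L[ℝ] W}
    {ε : ℝ} (h : ∀ w, ‖w‖ ≤ 1 → ‖L (F (x + w) - F x) - w‖ ≤ ε) :
    (∀ v, ‖L (fderiv ℝ (M1 F) x v) - v‖ ≤ ck W * ε * ‖v‖) ∧ ‖L (M1 F x - F x)‖ ≤ ε := by
  have hε : 0 ≤ ε := (norm_nonneg _).trans (h 0 (by simp))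
  have hFx : LocallyIntegrable (fun t => F (x - t)) volume := by
    have h1 := hF
    rw [locallyIntegrable_iff] at h1 ⊢
    intro k hk
    have h2 : IsCompact ((fun t : W => x - t) '' k) := hk.image (by fun_prop)
    have h3 := h1 _ h2
    have hmp : MeasurePreserving (fun t : W => x - t) volume volume :=
      Measure.measurePreserving_sub_left volume x
    have hme : MeasurableEmbedding (fun t : W => x - t) :=
      (MeasurableEquiv.subLeft x).measurableEmbedding
    have h4 := (hmp.integrableOn_comp_preimage hme (s := (fun t : W => x - t) '' k) (f := F)).2 h3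
    refine h4.mono_set ?_
    exact subset_preimage_image _ _
  constructor
  · intro v
    obtain ⟨D, hD, hDv⟩ := M1_hasFDerivAt hF x
    rw [hD.fderiv, hDv]
    have hc1 : Continuous fun t : W => fderiv ℝ (kr : W → ℝ) t v :=
      fderiv_kr_cont.clm_apply continuous_const
    have hcs1 : HasCompactSupport fun t : W => fderiv ℝ (kr : W → ℝ) t v := by
      refine fderiv_kr_cs.mono fun t ht => ?_
      intro h0
      exact ht (by simp [h0])
    have hint1 : Integrable (fun t => (fderiv ℝ (kr : W → ℝ) t v) • F (x - t)) := by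
      have := hFx.integrable_smul_left_of_hasCompactSupport hc1 hcs1
      exact this
    have hint0 : Integrable (fun t => (fderiv ℝ (kr : W → ℝ) t v) • F x) :=
      (hc1.integrable_of_hasCompactSupport hcs1).smul_const _
    have hintt : Integrable (fun t : W => (fderiv ℝ (kr : W → ℝ) t v) • t) :=
      (hc1.smul continuous_id).integrable_of_hasCompactSupport (hcs1.smul_right)
    have h0 : (∫ t, (fderiv ℝ (kr : W → ℝ) t v) • F x) = 0 := by
      rw [integral_smul_const, int_fderiv_const, zero_smul]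
    have h1 : L (∫ t, (fderiv ℝ (kr : W → ℝ) t v) • F (x - t)) - v =
        ∫ t, (fderiv ℝ (kr : W → ℝ) t v) • (L (F (x - t) - F x) - (-t)) := by
      have e1 : (fun t => (fderiv ℝ (kr : W → ℝ) t v) • (L (F (x - t) - F x) - (-t))) =
          fun t => L ((fderiv ℝ (kr : W → ℝ) t v) • F (x - t) - (fderiv ℝ (kr : W → ℝ) t v) • F x) +
            (fderiv ℝ (kr : W → ℝ) t v) • t := by
        funext t
        rw [← smul_sub, map_smul, ← smul_add, sub_neg_eq_add]
      have hi : Integrable (fun t => (fderiv ℝ (kr : W → ℝ) t v) • F (x - t) -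
          (fderiv ℝ (kr : W → ℝ) t v) • F x) := hint1.sub hint0
      have hi2 : Integrable (fun t => L ((fderiv ℝ (kr : W → ℝ) t v) • F (x - t) -
          (fderiv ℝ (kr : W → ℝ) t v) • F x)) := L.integrable_comp hi
      rw [e1, integral_add hi2 hintt, ContinuousLinearMap.integral_comp_comm L hi,
        integral_sub hint1 hint0, h0, sub_zero, int_fderiv_id]
      abel
    rw [h1]
    calc ‖∫ t, (fderiv ℝ (kr : W → ℝ) t v) • (L (F (x - t) - F x) - (-t))‖
        ≤ ∫ t : W, ‖fderiv ℝ (kr : W → ℝ) t‖ * (ε * ‖v‖) := by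
          refine norm_integral_le_of_norm_le (fderiv_kr_int.norm.mul_const _)
            (Eventually.of_forall fun t => ?_)
          by_cases ht : ‖t‖ ≤ 1
          · rw [norm_smul]
            have h2 := h (-t) (by rwa [norm_neg])
            rw [← sub_eq_add_neg] at h2
            calc ‖fderiv ℝ (kr : W → ℝ) t v‖ * ‖L (F (x - t) - F x) - -t‖
                ≤ (‖fderiv ℝ (kr : W → ℝ) t‖ * ‖v‖) * ε :=
                  mul_le_mul (ContinuousLinearMap.le_opNorm _ _) h2 (norm_nonneg _)
                    (by positivity)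
              _ = _ := by ring
          · rw [fderiv_kr_zero (not_le.1 ht)]
            simp
      _ = ck W * ε * ‖v‖ := by
          rw [integral_mul_const]
          unfold ck
          ring
  · have hint1 : Integrable (fun t => kr t • F (x - t)) :=
      hFx.integrable_smul_left_of_hasCompactSupport kr_smooth.continuous kr_hasCompactSupport
    have hint0 : Integrable (fun t : W => kr t • F x) := kr_integrable.smul_const _
    have hintt : Integrable (fun t : W => kr t • t) :=
      (kr_smooth.continuous.smul continuous_id).integrable_of_hasCompactSupport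
        (kr_hasCompactSupport.smul_right)
    have h0 : (∫ t : W, kr t • F x) = F x := by
      rw [integral_smul_const, kr_int, one_smul]
    have h1 : L (M1 F x - F x) = ∫ t, kr t • (L (F (x - t) - F x) - (-t)) := by
      have e1 : (fun t => kr t • (L (F (x - t) - F x) - (-t))) =
          fun t => L (kr t • F (x - t) - kr t • F x) + kr t • t := by
        funext t
        rw [← smul_sub, map_smul, ← smul_add, sub_neg_eq_add]
      have hi : Integrable (fun t => kr t • F (x - t) - kr t • F x) := hint1.sub hint0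
      have hi2 : Integrable (fun t => L (kr t • F (x - t) - kr t • F x)) :=
        L.integrable_comp hi
      rw [e1, integral_add hi2 hintt, ContinuousLinearMap.integral_comp_comm L hi,
        integral_sub hint1 hint0, h0, int_kr_id, add_zero, M1_apply]
    rw [h1]
    calc ‖∫ t, kr t • (L (F (x - t) - F x) - (-t))‖ ≤ ∫ t : W, kr t * ε := by
          refine norm_integral_le_of_norm_le (kr_integrable.mul_const _)
            (Eventually.of_forall fun t => ?_)
          rw [norm_smul, Real.norm_of_nonneg (kr_nonneg t)]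
          by_cases ht : ‖t‖ ≤ 1
          · have h2 := h (-t) (by rwa [norm_neg])
            rw [← sub_eq_add_neg] at h2
            exact mul_le_mul_of_nonneg_left h2 (kr_nonneg t)
          · rw [kr_zero (not_le.1 ht).le]
            simp
      _ = ε := by
          rw [integral_mul_const, kr_int, one_mul]

/-- the mollification at scale `s` -/
def MS (s : ℝ) (F : W → W) : W → W := fun x => M1 (fun y => F (s • y)) (s⁻¹ • x)

lemma li_scale {F : W → W} (hF : LocallyIntegrable F volume) {s : ℝ} (hs : 0 < s) :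
    LocallyIntegrable (fun y => F (s • y)) volume := by
  rw [locallyIntegrable_iff] at hF ⊢
  intro k hk
  have h2 : IsCompact ((fun t : W => s • t) '' k) := hk.image (by fun_prop)
  have h3 := hF _ h2
  have h4 : Integrable (((fun t : W => s • t) '' k).indicator F) := by
    rw [integrable_indicator_iff h2.measurableSet]
    exact h3
  have h5 := h4.comp_smul hs.ne'
  rw [← integrable_indicator_iff hk.measurableSet]
  refine h5.congr (Eventually.of_forall fun y => ?_)
  by_cases hy : y ∈ k
  · have h6 : s • y ∈ (fun t : W => s • t) '' k := ⟨y, hy, rfl⟩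
    rw [indicator_of_mem hy]
    show ((fun t : W => s • t) '' k).indicator F (s • y) = _
    rw [indicator_of_mem h6]
  · rw [indicator_of_notMem hy]
    show ((fun t : W => s • t) '' k).indicator F (s • y) = _
    rw [indicator_of_notMem]
    rintro ⟨z, hz, hzy⟩
    have : z = y := smul_right_injective _ hs.ne' hzy
    exact hy (this ▸ hz)

lemma MS_smooth {F : W → W} (hF : LocallyIntegrable F volume) {s : ℝ} (hs : 0 < s) :
    ContDiff ℝ ∞ (MS s F) :=
  (M1_smooth (li_scale hF hs)).comp (contDiff_const_smul s⁻¹)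

/-- **mollification of a map close to linear at scale `s` around `x`** -/
theorem MS_near {F : W → W} (hF : LocallyIntegrable F volume) {s : ℝ} (hs : 0 < s) {x : W}
    {L : W →L[ℝ] W} {ε : ℝ} (h : ∀ w, ‖w‖ ≤ s → ‖L (F (x + w) - F x) - w‖ ≤ ε * s) :
    (∀ v, ‖L (fderiv ℝ (MS s F) x v) - v‖ ≤ ck W * ε * ‖v‖) ∧ ‖L (MS s F x - F x)‖ ≤ ε * s := by
  have hx : s • (s⁻¹ • x) = x := by rw [smul_smul, mul_inv_cancel₀ hs.ne', one_smul]
  have hF1 := li_scale hF hs
  have key := M1_near (F := fun y => F (s • y)) hF1 (x := s⁻¹ • x) (L := s⁻¹ • L) (ε := ε) (by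
    intro w hw
    have h1 := h (s • w) (by
      rw [norm_smul, Real.norm_of_nonneg hs.le]
      calc s * ‖w‖ ≤ s * 1 := mul_le_mul_of_nonneg_left hw hs.le
        _ = s := mul_one s)
    have h2 : (s⁻¹ • L) (F (s • (s⁻¹ • x + w)) - F (s • (s⁻¹ • x))) - w =
        s⁻¹ • (L (F (x + s • w) - F x) - s • w) := by
      rw [smul_add, hx, smul_sub, smul_smul, inv_mul_cancel₀ hs.ne', one_smul]
      rfl
    rw [h2, norm_smul, Real.norm_of_nonneg (inv_pos.2 hs).le, inv_mul_le_iff₀ hs]
    linarith)
  obtain ⟨k1, k2⟩ := key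
  have hd : HasFDerivAt (MS s F) ((fderiv ℝ (M1 fun y => F (s • y)) (s⁻¹ • x)).comp
      (s⁻¹ • ContinuousLinearMap.id ℝ (W))) x := by
    have h1 : HasFDerivAt (M1 fun y => F (s • y)) (fderiv ℝ (M1 fun y => F (s • y)) (s⁻¹ • x))
        (s⁻¹ • x) := ((M1_smooth hF1).differentiable (by simp) _).hasFDerivAt
    exact h1.comp x ((hasFDerivAt_id x).const_smul s⁻¹)
  constructor
  · intro v
    rw [hd.fderiv]
    have h2 := k1 v
    have h3 : L (((fderiv ℝ (M1 fun y => F (s • y)) (s⁻¹ • x)).comp
      (s⁻¹ • ContinuousLinearMap.id ℝ (W))) v) =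
        (s⁻¹ • L) (fderiv ℝ (M1 fun y => F (s • y)) (s⁻¹ • x) v) := by
      simp
    rw [h3]
    exact h2
  · have h4 : (s⁻¹ • L) (M1 (fun y => F (s • y)) (s⁻¹ • x) - F (s • (s⁻¹ • x))) =
        s⁻¹ • L (MS s F x - F x) := by
      rw [hx]
      rfl
    rw [h4, norm_smul, Real.norm_of_nonneg (inv_pos.2 hs).le, inv_mul_le_iff₀ hs] at k2
    linarith

/-- the mollification is a mean value of the values in the ball -/
theorem MS_close {F : W → W} (hF : LocallyIntegrable F volume) {s : ℝ} (hs : 0 < s) {x : W}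
    {η : ℝ} (h : ∀ w, ‖w‖ ≤ s → ‖F (x + w) - F x‖ ≤ η) : ‖MS s F x - F x‖ ≤ η := by
  have hx : s • (s⁻¹ • x) = x := by rw [smul_smul, mul_inv_cancel₀ hs.ne', one_smul]
  have hF1 := li_scale hF hs
  have hη : 0 ≤ η := (norm_nonneg _).trans (h 0 (by simp [hs.le]))
  have h0 : (∫ t : W, kr t • F x) = F x := by
    rw [integral_smul_const, kr_int, one_smul]
  have hex : Integrable (fun t => kr t • F (s • (s⁻¹ • x - t))) :=
    (kr_hasCompactSupport.convolutionExists_left (ContinuousLinearMap.lsmul ℝ ℝ)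
      kr_smooth.continuous hF1 (s⁻¹ • x)).integrable
  have h1 : MS s F x - F x = ∫ t, kr t • (F (s • (s⁻¹ • x - t)) - F x) := by
    have e1 : (fun t => kr t • (F (s • (s⁻¹ • x - t)) - F x)) =
        fun t => kr t • F (s • (s⁻¹ • x - t)) - kr t • F x := by
      funext t
      rw [smul_sub]
    rw [e1, integral_sub hex (kr_integrable.smul_const _), h0]
    rfl
  rw [h1]
  calc ‖∫ t, kr t • (F (s • (s⁻¹ • x - t)) - F x)‖ ≤ ∫ t : W, kr t * η := by
        refine norm_integral_le_of_norm_le (kr_integrable.mul_const _)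
          (Eventually.of_forall fun t => ?_)
        rw [norm_smul, Real.norm_of_nonneg (kr_nonneg t)]
        by_cases ht : ‖t‖ ≤ 1
        · refine mul_le_mul_of_nonneg_left ?_ (kr_nonneg t)
          have h2 := h (-(s • t)) (by
            rw [norm_neg, norm_smul, Real.norm_of_nonneg hs.le]
            calc s * ‖t‖ ≤ s * 1 := mul_le_mul_of_nonneg_left ht hs.le
              _ = s := mul_one s)
          rw [smul_sub, hx, sub_eq_add_neg x]
          exact h2
        · rw [kr_zero (not_le.1 ht).le]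
          simp
    _ = η := by
        rw [integral_mul_const, kr_int, one_mul]

/-- the mollification depends only on the values in the ball of radius `s` -/
theorem MS_congr {F F' : W → W} {s : ℝ} (hs : 0 < s) {x : W}
    (h : ∀ w, ‖w‖ ≤ s → F (x + w) = F' (x + w)) : MS s F x = MS s F' x := by
  have hx : s • (s⁻¹ • x) = x := by rw [smul_smul, mul_inv_cancel₀ hs.ne', one_smul]
  show (∫ t, kr t • F (s • (s⁻¹ • x - t))) = ∫ t, kr t • F' (s • (s⁻¹ • x - t))
  congr 1
  funext t
  by_cases ht : ‖t‖ ≤ 1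
  · have h2 := h (-(s • t)) (by
      rw [norm_neg, norm_smul, Real.norm_of_nonneg hs.le]
      calc s * ‖t‖ ≤ s * 1 := mul_le_mul_of_nonneg_left ht hs.le
        _ = s := mul_one s)
    rw [smul_sub, hx, sub_eq_add_neg, h2]
  · rw [kr_zero (not_le.1 ht).le, zero_smul, zero_smul]

/-- the mollification as a function of the scale -/
def MM (f : W → W) (σ : ℝ) (x : W) : W := ∫ t, kr t • f (x - σ • t)

theorem MM_eq {f : W → W} {σ : ℝ} (hσ : σ ≠ 0) : MM f σ = MS σ f := by
  funext x
  show (∫ t, kr t • f (x - σ • t)) = ∫ t, kr t • f (σ • (σ⁻¹ • x - t))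
  congr 1
  funext t
  rw [smul_sub, smul_smul, mul_inv_cancel₀ hσ, one_smul]

theorem MM_zero {f : W → W} : MM f 0 = f := by
  funext x
  show (∫ t, kr t • f (x - (0:ℝ) • t)) = f x
  simp only [zero_smul, sub_zero]
  rw [integral_smul_const, kr_int, one_smul]

/-- cut off family -/
def gg (b : W → ℝ) (f : W → W) (p : ℝ × W) (y : W) : W := b y • f (p.2 + p.1 • y)

theorem gg_smooth {b : W → ℝ} (hb : ContDiff ℝ ∞ b) {f : W → W} (hf : ContDiff ℝ ∞ f) :
    ContDiff ℝ ∞ fun q : (ℝ × W) × W => gg b f q.1 q.2 := by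
  have a1 : ContDiff ℝ ∞ fun q : (ℝ × W) × W => b q.2 := hb.comp contDiff_snd
  have a2 : ContDiff ℝ ∞ fun q : (ℝ × W) × W => q.1.2 + q.1.1 • q.2 :=
    (contDiff_snd.comp contDiff_fst).add ((contDiff_fst.comp contDiff_fst).smul contDiff_snd)
  exact a1.smul (hf.comp a2)

theorem conv_smooth {b : W → ℝ} (hb : ContDiff ℝ ∞ b)
    (hb2 : ∀ y, y ∉ closedBall (0 : W) 2 → b y = 0) {f : W → W} (hf : ContDiff ℝ ∞ f) :
    ContDiff ℝ ∞ fun q : (ℝ × W) × W =>
      (kr ⋆[(ContinuousLinearMap.lsmul ℝ ℝ : ℝ →L[ℝ] W →L[ℝ] W), volume] gg b f q.1) q.2 := by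
  have h1 := contDiffOn_convolution_right_with_param (μ := (volume : Measure (W)))
    (f := kr) (n := (⊤ : ℕ∞)) (ContinuousLinearMap.lsmul ℝ ℝ : ℝ →L[ℝ] W →L[ℝ] W)
    (g := gg b f) (s := univ) (k := closedBall (0 : W) 2) isOpen_univ
    (isCompact_closedBall _ _) (by
      intro p y _ hy
      show b y • f (p.2 + p.1 • y) = 0
      rw [hb2 y hy, zero_smul]) kr_smooth.continuous.locallyIntegrable (by
        exact (gg_smooth hb hf).contDiffOn)
  rw [univ_prod_univ, contDiffOn_univ] at h1
  exact h1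

theorem MM_conv {b : W → ℝ} (hb1 : ∀ y : W, ‖y‖ ≤ 1 → b y = 1) (f : W → W)
    (p : ℝ × W) : MM f p.1 p.2 =
      (kr ⋆[(ContinuousLinearMap.lsmul ℝ ℝ : ℝ →L[ℝ] W →L[ℝ] W), volume] gg b f p) 0 := by
  rw [convolution_def]
  show (∫ t, kr t • f (p.2 - p.1 • t)) = ∫ t, kr t • gg b f p (0 - t)
  congr 1
  funext t
  by_cases ht : ‖t‖ ≤ 1
  · have hb : b (0 - t) = 1 := by
      apply hb1
      simpa using ht
    show _ = kr t • (b (0 - t) • f (p.2 + p.1 • (0 - t)))
    rw [hb, one_smul, zero_sub, smul_neg, ← sub_eq_add_neg]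
  · rw [kr_zero (not_le.1 ht).le, zero_smul, zero_smul]

theorem exists_bump : ∃ b : W → ℝ, ContDiff ℝ ∞ b ∧
    (∀ y, y ∉ closedBall (0 : W) 2 → b y = 0) ∧ ∀ y : W, ‖y‖ ≤ 1 → b y = 1 := by
  let b : ContDiffBump (0 : W) := ⟨1, 2, one_pos, one_lt_two⟩
  refine ⟨b, b.contDiff, ?_, fun y hy => b.one_of_mem_closedBall (by
    rwa [mem_closedBall_zero_iff])⟩
  intro y hy
  apply b.zero_of_le_dist
  rw [mem_closedBall, not_le] at hy
  exact hy.le

theorem MM_smooth {f : W → W} (hf : ContDiff ℝ ∞ f) :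
    ContDiff ℝ ∞ fun p : ℝ × W => MM f p.1 p.2 := by
  obtain ⟨b, hb, hb2, hb1⟩ := exists_bump (W := W)
  have h1 := conv_smooth hb hb2 hf
  have h2 : (fun p : ℝ × W => MM f p.1 p.2) = fun p : ℝ × W =>
      (kr ⋆[(ContinuousLinearMap.lsmul ℝ ℝ : ℝ →L[ℝ] W →L[ℝ] W), volume] gg b f p) 0 := by
    funext p
    exact MM_conv hb1 f p
  rw [h2]
  have h3 : ContDiff ℝ ∞ fun p : ℝ × W => (p, (0 : W)) := contDiff_id.prodMk contDiff_const
  exact ContDiff.comp (g := fun q : (ℝ × W) × W =>
      (kr ⋆[(ContinuousLinearMap.lsmul ℝ ℝ : ℝ →L[ℝ] W →L[ℝ] W), volume] gg b f q.1) q.2)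
    (f := fun p : ℝ × W => (p, (0 : W))) h1 h3

theorem fderiv_MS_apply {F : W → W} (hF : Continuous F) {s : ℝ} (hs : 0 < s) (x v : W) :
    fderiv ℝ (MS s F) x v =
      ∫ t in closedBall (0 : W) 1, (fderiv ℝ (kr : W → ℝ) t (s⁻¹ • v)) • F (x - s • t) := by
  have hF1 := li_scale hF.locallyIntegrable hs
  obtain ⟨D, hD, hDv⟩ := M1_hasFDerivAt hF1 (s⁻¹ • x)
  have hd : HasFDerivAt (MS s F) (D.comp (s⁻¹ • ContinuousLinearMap.id ℝ (W))) x :=
    hD.comp x ((hasFDerivAt_id x).const_smul s⁻¹)
  rw [hd.fderiv]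
  show D (s⁻¹ • v) = _
  rw [hDv]
  rw [setIntegral_eq_integral_of_forall_compl_eq_zero]
  · congr 1
    funext t
    rw [smul_sub, smul_smul, mul_inv_cancel₀ hs.ne', one_smul]
  · intro t ht
    rw [mem_closedBall_zero_iff, not_le] at ht
    rw [fderiv_kr_zero ht]
    simp

theorem cont_fderiv_MS {H : ℝ → W → W} (hH : Continuous (uncurry H)) {s : ℝ} (hs : 0 < s) :
    Continuous fun p : ℝ × W => fderiv ℝ (MS s (H p.1)) p.2 := by
  rw [continuous_clm_apply]
  intro v
  have h1 : (fun p : ℝ × W => fderiv ℝ (MS s (H p.1)) p.2 v) = fun p : ℝ × W =>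
      ∫ t in closedBall (0 : W) 1, (fderiv ℝ (kr : W → ℝ) t (s⁻¹ • v)) • H p.1 (p.2 - s • t) := by
    funext p
    have hc : Continuous (H p.1) := hH.comp (continuous_const.prodMk continuous_id)
    exact fderiv_MS_apply hc hs p.2 v
  rw [h1]
  refine continuous_parametric_integral_of_continuous ?_ (isCompact_closedBall _ _)
  have a1 : Continuous fun q : (ℝ × W) × W => fderiv ℝ (kr : W → ℝ) q.2 (s⁻¹ • v) :=
    (fderiv_kr_cont.comp continuous_snd).clm_apply continuous_const
  have a2 : Continuous fun q : (ℝ × W) × W => uncurry H (q.1.1, q.1.2 - s • q.2) :=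
    hH.comp ((continuous_fst.comp continuous_fst).prodMk
      ((continuous_snd.comp continuous_fst).sub (continuous_snd.const_smul s)))
  exact a1.smul a2


end Pool.Agent.Q196.NP
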