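import Pool.Agent.Q196.NP.Proj

/-!
# Complex linear isomorphisms are joined to the identity
-/

set_option autoImplicit false

open Set Filter Topology Metric Function
open scoped ContDiff

noncomputable section

namespace Pool.Agent.Q196.NP

variable {n : ℕ}

/-- composition with a complex linear isomorphism -/
theorem Iso.left_comp {f g : V n → V n} (h : Iso (U1 n) f g) (A : V n ≃L[ℂ] V n) :
    Iso (U1 n) (fun v => A (f v)) (fun v => A (g v)) := by
  obtain ⟨Φ, hs, hH, h0, h1⟩ := h
  have hAs : ContDiff ℝ ∞ (fun v : V n => A v) :=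
    ((A : V n →L[ℂ] V n).restrictScalars ℝ).contDiff
  have hr : ∀ (r : ℝ) (v : V n), r • v = ((r : ℂ)) • v := fun r v => (Complex.coe_smul r v).symm
  refine ⟨fun t v => A (Φ t v), hAs.comp_contDiffOn hs, fun t => ⟨?_, ?_, ?_⟩, ?_, ?_⟩
  · intro r hr0 v
    show A (Φ t (r • v)) = r • A (Φ t v)
    rw [(hH t).hom r hr0, hr, hr, map_smul]
  · rintro _ ⟨μ, hμ, rfl⟩ v
    show A (Φ t (rot n μ hμ v)) = rot n μ hμ (A (Φ t v))
    rw [(hH t).equi _ ⟨μ, hμ, rfl⟩]
    show A (μ • Φ t v) = μ • A (Φ t v)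
    rw [map_smul]
  · intro v hv
    obtain ⟨B, hB⟩ := (hH t).der v hv
    refine ⟨B.trans (A.restrictScalars ℝ), ?_⟩
    exact ((A.restrictScalars ℝ).hasFDerivAt (x := Φ t v)).comp v hB
  · intro t ht
    show (fun v => A (Φ t v)) = _
    rw [h0 t ht]
  · intro t ht
    show (fun v => A (Φ t v)) = _
    rw [h1 t ht]

/-- a path in the complex plane from `0` to `1` which avoids finitely many values -/
lemma exists_eta (S : Set ℂ) (hS : S.Finite) : ∃ η : ℝ, ∀ x : ℝ, 0 ≤ x → x ≤ 1 →
    (x : ℂ) + ((η * (x * (1 - x)) : ℝ) : ℂ) * Complex.I ∈ S → x = 0 ∨ x = 1 := by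
  have hT : ((fun z : ℂ => z.im / (z.re * (1 - z.re))) '' S).Finite := hS.image _
  obtain ⟨η, hη⟩ := (infinite_univ (α := ℝ)).exists_notMem_finite hT
  refine ⟨η, fun x hx0 hx1 hx => ?_⟩
  by_contra hne
  push Not at hne
  apply hη.2
  refine ⟨_, hx, ?_⟩
  have h1 : ((x : ℂ) + ((η * (x * (1 - x)) : ℝ) : ℂ) * Complex.I).re = x := by
    simp
  have h2 : ((x : ℂ) + ((η * (x * (1 - x)) : ℝ) : ℂ) * Complex.I).im = η * (x * (1 - x)) := by
    simp
  show ((x : ℂ) + ((η * (x * (1 - x)) : ℝ) : ℂ) * Complex.I).im /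
    (((x : ℂ) + ((η * (x * (1 - x)) : ℝ) : ℂ) * Complex.I).re *
      (1 - ((x : ℂ) + ((η * (x * (1 - x)) : ℝ) : ℂ) * Complex.I).re)) = η
  rw [h1, h2]
  have h3 : x ≠ 0 := hne.1
  have h4 : 1 - x ≠ 0 := sub_ne_zero.2 (Ne.symm hne.2)
  field_simp

/-- complex linear isomorphisms are joined to the identity -/
theorem iso_linear (A : V n ≃L[ℂ] V n) : Iso (U1 n) (fun v => v) (fun v => A v) := by
  let S : Set ℂ := (fun μ : ℂ => (1 - μ)⁻¹) '' {μ | Module.End.HasEigenvalue
    ((A : V n →L[ℂ] V n) : V n →ₗ[ℂ] V n) μ}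
  have hS : S.Finite := (Module.End.finite_hasEigenvalue _).image _
  obtain ⟨η, hη⟩ := exists_eta S hS
  let z : ℝ → ℂ := fun t => ((Real.smoothTransition t : ℝ) : ℂ) +
    ((η * (Real.smoothTransition t * (1 - Real.smoothTransition t)) : ℝ) : ℂ) * Complex.I
  have hz0 : ∀ t, t ≤ 0 → z t = 0 := by
    intro t ht
    show ((Real.smoothTransition t : ℝ) : ℂ) +
      ((η * (Real.smoothTransition t * (1 - Real.smoothTransition t)) : ℝ) : ℂ) * Complex.I = 0
    rw [Real.smoothTransition.zero_of_nonpos ht]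
    simp
  have hz1 : ∀ t, 1 ≤ t → z t = 1 := by
    intro t ht
    show ((Real.smoothTransition t : ℝ) : ℂ) +
      ((η * (Real.smoothTransition t * (1 - Real.smoothTransition t)) : ℝ) : ℂ) * Complex.I = 1
    rw [Real.smoothTransition.one_of_one_le ht]
    simp
  have hzs : ContDiff ℝ ∞ z := by
    have a : ContDiff ℝ ∞ Real.smoothTransition := Real.smoothTransition.contDiff
    have a1 : ContDiff ℝ ∞ fun t : ℝ => ((Real.smoothTransition t : ℝ) : ℂ) :=
      Complex.ofRealCLM.contDiff.comp a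
    have a2 : ContDiff ℝ ∞ fun t : ℝ =>
        ((η * (Real.smoothTransition t * (1 - Real.smoothTransition t)) : ℝ) : ℂ) :=
      Complex.ofRealCLM.contDiff.comp (contDiff_const.mul (a.mul (contDiff_const.sub a)))
    exact a1.add (a2.mul contDiff_const)
  -- injectivity of the members of the pencil
  have hinj : ∀ t, ∀ v : V n, (1 - z t) • v + z t • A v = 0 → v = 0 := by
    intro t v hv
    by_contra hv0
    by_cases hz : z t = 0
    · rw [hz, sub_zero, one_smul, zero_smul, add_zero] at hv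
      exact hv0 hv
    have h1 : A v = (1 - (z t)⁻¹) • v := by
      have h2 : z t • A v = (z t - 1) • v := by
        have := eq_neg_of_add_eq_zero_right hv
        rw [this, ← neg_smul, neg_sub]
      have h3 := congrArg (fun w => (z t)⁻¹ • w) h2
      simp only [smul_smul, inv_mul_cancel₀ hz, one_smul] at h3
      rw [h3, mul_sub, inv_mul_cancel₀ hz, mul_one]
    have h4 : Module.End.HasEigenvalue ((A : V n →L[ℂ] V n) : V n →ₗ[ℂ] V n) (1 - (z t)⁻¹) :=
      Module.End.hasEigenvalue_of_hasEigenvector (x := v)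
        ⟨Module.End.mem_eigenspace_iff.2 h1, hv0⟩
    have h5 : z t ∈ S := by
      refine ⟨1 - (z t)⁻¹, h4, ?_⟩
      show (1 - (1 - (z t)⁻¹))⁻¹ = z t
      rw [sub_sub_cancel, inv_inv]
    rcases hη _ (Real.smoothTransition.nonneg t) (Real.smoothTransition.le_one t) h5 with h6 | h6
    · apply hz
      show ((Real.smoothTransition t : ℝ) : ℂ) +
        ((η * (Real.smoothTransition t * (1 - Real.smoothTransition t)) : ℝ) : ℂ) * Complex.I = 0
      rw [h6]
      simp
    · have h7 : z t = 1 := by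
        show ((Real.smoothTransition t : ℝ) : ℂ) +
          ((η * (Real.smoothTransition t * (1 - Real.smoothTransition t)) : ℝ) : ℂ) *
            Complex.I = 1
        rw [h6]
        simp
      rw [h7, inv_one, sub_self, zero_smul] at h1
      exact hv0 ((map_eq_zero_iff A A.injective).1 h1)
  have hr : ∀ (r : ℝ) (v : V n), r • v = ((r : ℂ)) • v := fun r v => (Complex.coe_smul r v).symm
  let Φ : ℝ → V n → V n := fun t v => (1 - z t) • v + z t • A v
  refine ⟨Φ, ?_, fun t => ⟨?_, ?_, ?_⟩, ?_, ?_⟩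
  · have hAs : ContDiff ℝ ∞ (fun v : V n => A v) :=
      ((A : V n →L[ℂ] V n).restrictScalars ℝ).contDiff
    have h1 : ContDiff ℝ ∞ fun p : ℝ × V n => (1 - z p.1) • p.2 + z p.1 • A p.2 :=
      ((contDiff_const.sub (hzs.comp contDiff_fst)).smul contDiff_snd).add
        ((hzs.comp contDiff_fst).smul (hAs.comp contDiff_snd))
    exact h1.contDiffOn
  · intro r _ v
    show (1 - z t) • (r • v) + z t • A (r • v) = r • ((1 - z t) • v + z t • A v)
    rw [hr, hr, map_smul, smul_add, smul_comm, smul_comm (z t)]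
  · rintro _ ⟨μ, hμ, rfl⟩ v
    show (1 - z t) • (μ • v) + z t • A (μ • v) = μ • ((1 - z t) • v + z t • A v)
    rw [map_smul, smul_add, smul_comm, smul_comm (z t)]
  · intro v _
    let D : V n →L[ℂ] V n := (1 - z t) • ContinuousLinearMap.id ℂ (V n) +
      z t • (A : V n →L[ℂ] V n)
    have hD : ∀ w, D w = (1 - z t) • w + z t • A w := fun w => rfl
    have hDi : Injective D := by
      rw [injective_iff_map_eq_zero]
      intro w hw
      rw [hD] at hw
      exact hinj t w hw
    have hDs : Surjective D := (LinearMap.injective_iff_surjective (f := (D : V n →ₗ[ℂ] V n))).1 hDi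
    refine ⟨(ContinuousLinearEquiv.ofBijective D (LinearMap.ker_eq_bot.2 hDi)
      (LinearMap.range_eq_top.2 hDs)).restrictScalars ℝ, ?_⟩
    have h3 : HasFDerivAt (fun w => (D.restrictScalars ℝ) w) (D.restrictScalars ℝ) v :=
      (D.restrictScalars ℝ).hasFDerivAt
    exact h3
  · intro t ht
    funext v
    show (1 - z t) • v + z t • A v = v
    rw [hz0 t ht, sub_zero, one_smul, zero_smul, add_zero]
  · intro t ht
    funext v
    show (1 - z t) • v + z t • A v = A v
    rw [hz1 t ht, sub_self, zero_smul, one_smul, zero_add]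

end Pool.Agent.Q196.NP
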