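import Pool.Agent.Q196.NP.GLp

/-!
# Real linear isomorphisms of positive determinant are joined to the identity
-/

set_option autoImplicit false

open Set Filter Topology Metric Function Module
open scoped ContDiff Manifold

noncomputable section

namespace Pool.Agent.Q196.NP

variable {n : ℕ}

/-- the linear map with the matrix `M` -/
def TM (M : Matrix (Fin (n + 1)) (Fin (n + 1)) ℝ) : Eu (n + 1) →ₗ[ℝ] Eu (n + 1) :=
  Matrix.toLin (EuclideanSpace.basisFun (Fin (n + 1)) ℝ).toBasis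
    (EuclideanSpace.basisFun (Fin (n + 1)) ℝ).toBasis M

lemma TM_det (M : Matrix (Fin (n + 1)) (Fin (n + 1)) ℝ) : LinearMap.det (TM M) = M.det := by
  unfold TM
  exact LinearMap.det_toLin _ _

lemma TM_equiv {M : Matrix (Fin (n + 1)) (Fin (n + 1)) ℝ} (h : M.det ≠ 0) :
    ∃ A : Eu (n + 1) ≃L[ℝ] Eu (n + 1), ∀ x, A x = TM M x :=
  ⟨(LinearMap.equivOfDetNeZero (TM M) (by rw [TM_det]; exact h)).toContinuousLinearEquiv,
    fun x => rfl⟩

lemma TM_HD {M : Matrix (Fin (n + 1)) (Fin (n + 1)) ℝ} (h : M.det ≠ 0) :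
    HD ∅ (fun v => TM M v) := by
  obtain ⟨A, hA⟩ := TM_equiv h
  have h1 : (fun v => TM M v) = A := funext fun x => (hA x).symm
  rw [h1]
  exact ⟨fun r _ v => map_smul A r v, fun R hR => absurd hR (notMem_empty R),
      fun v _ => ⟨A, A.hasFDerivAt⟩⟩

lemma TM_smooth (M : Matrix (Fin (n + 1)) (Fin (n + 1)) ℝ) :
    ContDiff ℝ ∞ (fun v => TM M v) :=
  (LinearMap.toContinuousLinearMap (TM M)).contDiff

theorem iso_seg {M M' : Matrix (Fin (n + 1)) (Fin (n + 1)) ℝ} (h : Sg M M') :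
    Iso ∅ (fun v => TM M v) (fun v => TM M' v) := by
  have h0 : M.det ≠ 0 := by
    have := h 0 le_rfl zero_le_one
    simpa using this
  have h1 : M'.det ≠ 0 := by
    have := h 1 zero_le_one le_rfl
    simpa using this
  refine Iso.straight (TM_smooth M).contDiffOn (TM_smooth M').contDiffOn (TM_HD h0) (TM_HD h1) ?_
  intro τ t0 t1 x _
  obtain ⟨A, hA⟩ := TM_equiv (h τ t0 t1)
  refine ⟨A, ?_⟩
  have h2 : (fun x => (1 - τ) • TM M x + τ • TM M' x) = A := by
    funext x
    rw [hA]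
    unfold TM
    rw [map_add, map_smul, map_smul]
    rfl
  rw [h2]
  exact A.hasFDerivAt

theorem iso_chain {M M' : Matrix (Fin (n + 1)) (Fin (n + 1)) ℝ} (h : Lk M M') (hM : M.det ≠ 0) :
    Iso ∅ (fun v => TM M v) (fun v => TM M' v) := by
  induction h with
  | refl =>
    refine iso_seg fun τ _ _ => ?_
    rw [← add_smul, sub_add_cancel, one_smul]
    exact hM
  | tail _ h2 ih => exact ih.trans (iso_seg h2)

/-- **linear isomorphisms of positive determinant** -/
theorem iso_linear_real (A : Eu (n + 1) ≃L[ℝ] Eu (n + 1))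
    (hA : 0 < LinearMap.det ((A : Eu (n + 1) →L[ℝ] Eu (n + 1)) : Eu (n + 1) →ₗ[ℝ] Eu (n + 1))) :
    Iso ∅ (fun v => v) (fun v => A v) := by
  let b := (EuclideanSpace.basisFun (Fin (n + 1)) ℝ).toBasis
  let M := LinearMap.toMatrix b b ((A : Eu (n + 1) →L[ℝ] Eu (n + 1)) : Eu (n + 1) →ₗ[ℝ] Eu (n + 1))
  have hM : 0 < M.det := by
    show 0 < (LinearMap.toMatrix b b _).det
    rw [LinearMap.det_toMatrix]
    exact hA
  have h1 := iso_chain (lk_of_pos M hM) (by rw [Matrix.det_one]; exact one_ne_zero)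
  have h2 : (fun v => TM (1 : Matrix (Fin (n + 1)) (Fin (n + 1)) ℝ) v) = fun v => v := by
    funext v
    unfold TM
    rw [Matrix.toLin_one]
    rfl
  have h3 : (fun v => TM M v) = fun v => A v := by
    funext v
    show Matrix.toLin b b (LinearMap.toMatrix b b _) v = A v
    rw [Matrix.toLin_toMatrix]
    rfl
  rwa [h2, h3] at h1

/-- composition with a linear isomorphism -/
theorem Iso.left_comp_real {f g : Eu (n + 1) → Eu (n + 1)} (h : Iso ∅ f g)
    (A : Eu (n + 1) ≃L[ℝ] Eu (n + 1)) :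
    Iso ∅ (fun v => A (f v)) (fun v => A (g v)) := by
  obtain ⟨Φ, hs, hH, h0, h1⟩ := h
  refine ⟨fun t v => A (Φ t v), (A : Eu (n + 1) →L[ℝ] Eu (n + 1)).contDiff.comp_contDiffOn hs,
    fun t => ⟨?_, ?_, ?_⟩, ?_, ?_⟩
  · intro r hr0 v
    show A (Φ t (r • v)) = r • A (Φ t v)
    rw [(hH t).hom r hr0, map_smul]
  · intro R hR
    exact absurd hR (notMem_empty R)
  · intro v hv
    obtain ⟨B, hB⟩ := (hH t).der v hv
    exact ⟨B.trans A, (A.hasFDerivAt (x := Φ t v)).comp v hB⟩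
  · intro t ht
    show (fun v => A (Φ t v)) = _
    rw [h0 t ht]
  · intro t ht
    show (fun v => A (Φ t v)) = _
    rw [h1 t ht]

end Pool.Agent.Q196.NP
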