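import Pool.Agent.Q196.NP.Bij

/-!
# The projective space as the set of Hermitian projections of rank one
-/

set_option autoImplicit false

open Set Filter Topology Metric Function
open scoped ContDiff

noncomputable section

namespace Pool.Agent.Q196.NP

/-- `ℂ^(n+1)` -/
abbrev V (n : ℕ) : Type := EuclideanSpace ℂ (Fin (n + 1))

/-- matrices -/
abbrev Mat (n : ℕ) : Type := Fin (n + 1) → Fin (n + 1) → ℂ

/-- the Hermitian projections of rank one -/
def CP (n : ℕ) : Set (Mat n) :=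
  {P | (∀ i j, P j i = star (P i j)) ∧ (∀ i j, ∑ k, P i k * P k j = P i j) ∧ ∑ i, P i i = 1}

/-- the projection onto the line of `v` -/
def line {n : ℕ} (v : V n) : Mat n := fun i j => v i * star (v j) / ((‖v‖ ^ 2 : ℝ) : ℂ)

/-- the columns of a matrix -/
def col {n : ℕ} (j : Fin (n + 1)) (M : Mat n) : V n := WithLp.toLp 2 fun i => M i j

variable {n : ℕ}

lemma sum_normSq (v : V n) : ∑ i, star (v i) * v i = ((‖v‖ ^ 2 : ℝ) : ℂ) := by
  rw [EuclideanSpace.norm_sq_eq]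
  push_cast
  refine Finset.sum_congr rfl fun i _ => ?_
  have h : star (v i) = (starRingEnd ℂ) (v i) := rfl
  rw [h, ← Complex.normSq_eq_conj_mul_self, Complex.normSq_eq_norm_sq]
  push_cast
  rfl

lemma normSq_ne {v : V n} (hv : v ≠ 0) : ((‖v‖ ^ 2 : ℝ) : ℂ) ≠ 0 := by
  have : (‖v‖ ^ 2 : ℝ) ≠ 0 := pow_ne_zero 2 (norm_ne_zero_iff.2 hv)
  exact_mod_cast this

lemma line_mem {v : V n} (hv : v ≠ 0) : line v ∈ CP n := by
  have hc := normSq_ne hv
  refine ⟨fun i j => ?_, fun i j => ?_, ?_⟩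
  · show v j * star (v i) / ((‖v‖ ^ 2 : ℝ) : ℂ) = star (v i * star (v j) / ((‖v‖ ^ 2 : ℝ) : ℂ))
    rw [star_div₀, star_mul, star_star]
    have : star (((‖v‖ ^ 2 : ℝ) : ℂ)) = ((‖v‖ ^ 2 : ℝ) : ℂ) := Complex.conj_ofReal _
    rw [this]
  · show ∑ k, v i * star (v k) / ((‖v‖ ^ 2 : ℝ) : ℂ) * (v k * star (v j) / ((‖v‖ ^ 2 : ℝ) : ℂ)) =
      v i * star (v j) / ((‖v‖ ^ 2 : ℝ) : ℂ)
    have h1 : ∀ k, v i * star (v k) / ((‖v‖ ^ 2 : ℝ) : ℂ) *
        (v k * star (v j) / ((‖v‖ ^ 2 : ℝ) : ℂ)) =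
        (v i * star (v j) / (((‖v‖ ^ 2 : ℝ) : ℂ) * ((‖v‖ ^ 2 : ℝ) : ℂ))) * (star (v k) * v k) := by
      intro k
      field_simp
    rw [Finset.sum_congr rfl fun k _ => h1 k, ← Finset.mul_sum, sum_normSq]
    field_simp
  · show ∑ i, v i * star (v i) / ((‖v‖ ^ 2 : ℝ) : ℂ) = 1
    rw [← Finset.sum_div]
    have h1 : ∑ i, v i * star (v i) = ((‖v‖ ^ 2 : ℝ) : ℂ) := by
      rw [← sum_normSq]
      exact Finset.sum_congr rfl fun i _ => mul_comm _ _
    rw [h1, div_self hc]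

lemma line_smul (v : V n) {c : ℂ} (hc : c ≠ 0) : line (c • v) = line v := by
  funext i j
  show (c • v) i * star ((c • v) j) / ((‖c • v‖ ^ 2 : ℝ) : ℂ) =
    v i * star (v j) / ((‖v‖ ^ 2 : ℝ) : ℂ)
  have h1 : ((‖c • v‖ ^ 2 : ℝ) : ℂ) = (c * star c) * ((‖v‖ ^ 2 : ℝ) : ℂ) := by
    rw [norm_smul, mul_pow]
    push_cast
    congr 1
    have h : star c = (starRingEnd ℂ) c := rfl
    rw [h, Complex.mul_conj, Complex.normSq_eq_norm_sq]
    push_cast
    rfl
  have h2 : c * star c ≠ 0 := mul_ne_zero hc (star_ne_zero.2 hc)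
  rw [h1]
  have h3 : (c • v) i * star ((c • v) j) = (c * star c) * (v i * star (v j)) := by
    show (c * v i) * star (c * v j) = _
    rw [star_mul]
    ring
  rw [h3, mul_div_mul_left _ _ h2]

lemma col_line (v : V n) (j : Fin (n + 1)) :
    col j (line v) = (star (v j) / ((‖v‖ ^ 2 : ℝ) : ℂ)) • v := by
  ext i
  show v i * star (v j) / ((‖v‖ ^ 2 : ℝ) : ℂ) = (star (v j) / ((‖v‖ ^ 2 : ℝ) : ℂ)) * v i
  ring

/-- a projection of trace one is the projection onto the line of each of its non zero columns -/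
lemma eq_line {P : Mat n} (hP : P ∈ CP n) {j : Fin (n + 1)} (hj : col j P ≠ 0) :
    P = line (col j P) := by
  obtain ⟨h1, h2, h3⟩ := hP
  set v := col j P with hv
  set c : ℂ := ((‖v‖ ^ 2 : ℝ) : ℂ) with hc
  have hc0 : c ≠ 0 := normSq_ne hj
  have hcs : star c = c := Complex.conj_ofReal _
  have hvi : ∀ i, v i = P i j := fun i => rfl
  have hPv : ∀ i, ∑ k, P i k * v k = v i := fun i => by
    simp only [hvi]
    exact h2 i j
  have hvP : ∀ i, ∑ k, star (v k) * P k i = star (v i) := by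
    intro i
    have h4 : ∀ k, star (v k) * P k i = star (P i k * v k) := by
      intro k
      rw [star_mul, ← h1 i k]
    rw [Finset.sum_congr rfl fun k _ => h4 k, ← star_sum, hPv]
  let Q : Mat n := fun i j => P i j - v i * star (v j) / c
  have hQh : ∀ i k, Q k i = star (Q i k) := by
    intro i k
    show P k i - v k * star (v i) / c = star (P i k - v i * star (v k) / c)
    rw [star_sub, star_div₀, star_mul, star_star, hcs, ← h1 i k]
  have hQt : ∑ i, Q i i = 0 := by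
    show ∑ i, (P i i - v i * star (v i) / c) = 0
    rw [Finset.sum_sub_distrib, h3, ← Finset.sum_div]
    have h5 : ∑ i, v i * star (v i) = c := by
      rw [hc, ← sum_normSq]
      exact Finset.sum_congr rfl fun i _ => mul_comm _ _
    rw [h5, div_self hc0, sub_self]
  have hQQ : ∀ i, ∑ k, Q i k * Q k i = Q i i := by
    intro i
    have h6 : ∀ k, Q i k * Q k i = P i k * P k i - (P i k * v k) * (star (v i) / c) -
        (v i / c) * (star (v k) * P k i) + (v i * star (v i) / (c * c)) * (star (v k) * v k) := by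
      intro k
      show (P i k - v i * star (v k) / c) * (P k i - v k * star (v i) / c) = _
      field_simp
      ring
    rw [Finset.sum_congr rfl fun k _ => h6 k, Finset.sum_add_distrib, Finset.sum_sub_distrib,
      Finset.sum_sub_distrib, h2, ← Finset.sum_mul, hPv, ← Finset.mul_sum, hvP, ← Finset.mul_sum,
      sum_normSq, ← hc]
    show _ = P i i - v i * star (v i) / c
    field_simp
    ring
  have hsum : ∑ i, ∑ k, (‖Q i k‖ ^ 2 : ℝ) = 0 := by
    have h7 : ((∑ i, ∑ k, (‖Q i k‖ ^ 2 : ℝ) : ℝ) : ℂ) = 0 := by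
      push_cast
      rw [← hQt]
      refine Finset.sum_congr rfl fun i _ => ?_
      rw [← hQQ i]
      refine Finset.sum_congr rfl fun k _ => ?_
      rw [hQh i k]
      have h : star (Q i k) = (starRingEnd ℂ) (Q i k) := rfl
      rw [h, Complex.mul_conj, Complex.normSq_eq_norm_sq]
      push_cast
      rfl
    exact_mod_cast h7
  funext i k
  have h8 : ∑ k, (‖Q i k‖ ^ 2 : ℝ) = 0 :=
    (Finset.sum_eq_zero_iff_of_nonneg fun i _ => Finset.sum_nonneg fun k _ => sq_nonneg _).1 hsum i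
      (Finset.mem_univ _)
  have h9 : (‖Q i k‖ ^ 2 : ℝ) = 0 :=
    (Finset.sum_eq_zero_iff_of_nonneg fun k _ => sq_nonneg _).1 h8 k (Finset.mem_univ _)
  have h10 : Q i k = 0 := by
    have := pow_eq_zero_iff (two_ne_zero) |>.1 h9
    exact norm_eq_zero.1 this
  exact sub_eq_zero.1 h10

lemma norm_col_sq {P : Mat n} (hP : P ∈ CP n) (j : Fin (n + 1)) :
    ((‖col j P‖ ^ 2 : ℝ) : ℂ) = P j j := by
  rw [← sum_normSq, ← hP.2.1 j j]
  refine Finset.sum_congr rfl fun k _ => ?_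
  show star (P k j) * P k j = P j k * P k j
  rw [← hP.1 k j]

lemma sum_norm_col_sq {P : Mat n} (hP : P ∈ CP n) : ∑ j, ‖col j P‖ ^ 2 = 1 := by
  have h : ((∑ j, ‖col j P‖ ^ 2 : ℝ) : ℂ) = 1 := by
    push_cast
    rw [← hP.2.2]
    refine Finset.sum_congr rfl fun j _ => ?_
    rw [← norm_col_sq hP]
    push_cast
    rfl
  exact_mod_cast h

lemma exists_col {P : Mat n} (hP : P ∈ CP n) : ∃ j, 1 / ((n : ℝ) + 1) ≤ ‖col j P‖ ^ 2 := by
  by_contra h
  push Not at h
  have h1 : ∑ j, ‖col j P‖ ^ 2 < ∑ _j : Fin (n + 1), 1 / ((n : ℝ) + 1) :=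
    Finset.sum_lt_sum_of_nonempty Finset.univ_nonempty fun j _ => h j
  rw [sum_norm_col_sq hP, Finset.sum_const, Finset.card_univ, Fintype.card_fin, nsmul_eq_mul] at h1
  have h2 : ((n + 1 : ℕ) : ℝ) * (1 / ((n : ℝ) + 1)) = 1 := by
    push_cast
    field_simp
  rw [h2] at h1
  exact lt_irrefl _ h1

/-- every point of the model is the projection onto a line -/
lemma exists_line {P : Mat n} (hP : P ∈ CP n) : ∃ v : V n, v ≠ 0 ∧ P = line v := by
  obtain ⟨j, hj⟩ := exists_col hP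
  have h1 : col j P ≠ 0 := by
    intro h
    rw [h, norm_zero] at hj
    have : (0:ℝ) < 1 / ((n : ℝ) + 1) := by positivity
    nlinarith
  exact ⟨_, h1, eq_line hP h1⟩

/-! ### smoothness -/

lemma coord_smooth (i : Fin (n + 1)) : ContDiff ℝ ∞ fun v : V n => v i :=
  ((EuclideanSpace.proj i : V n →L[ℂ] ℂ).restrictScalars ℝ).contDiff

lemma cdiv_smooth {E : Type*} [NormedAddCommGroup E] [NormedSpace ℝ E] {f g : E → ℂ} {x : E}
    (hf : ContDiffAt ℝ ∞ f x) (hg : ContDiffAt ℝ ∞ g x) (h0 : g x ≠ 0) :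
    ContDiffAt ℝ ∞ (fun x => f x / g x) x := by
  simp only [div_eq_mul_inv]
  exact hf.mul (hg.inv h0)

lemma line_smooth {v : V n} (hv : v ≠ 0) : ContDiffAt ℝ ∞ (line : V n → Mat n) v := by
  rw [contDiffAt_pi]
  intro i
  rw [contDiffAt_pi]
  intro j
  have h1 : ContDiffAt ℝ ∞ (fun v : V n => v i) v := (coord_smooth i).contDiffAt
  have h2 : ContDiffAt ℝ ∞ (fun v : V n => star (v j)) v :=
    (Complex.conjCLE.contDiff.comp (coord_smooth j)).contDiffAt
  have h3 : ContDiffAt ℝ ∞ (fun v : V n => ((‖v‖ ^ 2 : ℝ) : ℂ)) v :=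
    (Complex.ofRealCLM.contDiff.comp (contDiff_norm_sq ℝ)).contDiffAt
  exact cdiv_smooth (h1.mul h2) h3 (normSq_ne hv)

/-- the column map as a linear map -/
def colL (j : Fin (n + 1)) : Mat n →ₗ[ℝ] V n where
  toFun := col j
  map_add' M N := by ext i; rfl
  map_smul' c M := by ext i; rfl

lemma col_smooth (j : Fin (n + 1)) : ContDiff ℝ ∞ (col j : Mat n → V n) :=
  (LinearMap.toContinuousLinearMap (colL j)).contDiff

/-- the weights -/
def wt (j : Fin (n + 1)) (M : Mat n) : ℝ :=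
  Real.smoothTransition (2 * ((n : ℝ) + 1) * ‖col j M‖ ^ 2 - 1)

lemma wt_smooth (j : Fin (n + 1)) : ContDiff ℝ ∞ (wt j : Mat n → ℝ) :=
  Real.smoothTransition.contDiff.comp
    ((contDiff_const.mul ((contDiff_norm_sq ℝ).comp (col_smooth j))).sub contDiff_const)

lemma wt_nonneg (j : Fin (n + 1)) (M : Mat n) : 0 ≤ wt j M := Real.smoothTransition.nonneg _

lemma wt_near {j : Fin (n + 1)} {M : Mat n} (h : col j M = 0) : ∀ᶠ N in 𝓝 M, wt j N = 0 := by
  have h1 : ContinuousAt (fun N : Mat n => 2 * ((n : ℝ) + 1) * ‖col j N‖ ^ 2 - 1) M :=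
    ((continuous_const.mul ((col_smooth j).continuous.norm.pow 2)).sub
      continuous_const).continuousAt
  have h2 : 2 * ((n : ℝ) + 1) * ‖col j M‖ ^ 2 - 1 < 0 := by
    rw [h, norm_zero]
    norm_num
  filter_upwards [h1.eventually (gt_mem_nhds h2)] with N hN
  exact Real.smoothTransition.zero_of_nonpos hN.le

lemma col_ne_of_wt {j : Fin (n + 1)} {M : Mat n} (h : wt j M ≠ 0) : col j M ≠ 0 := by
  intro h0
  exact h ((wt_near h0).self_of_nhds)

/-- the denominator -/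
def dn (M : Mat n) : ℝ := ∑ j, wt j M + Real.smoothTransition (1 - ∑ j, wt j M)

lemma sum_wt_smooth : ContDiff ℝ ∞ fun M : Mat n => ∑ j, wt j M :=
  ContDiff.sum fun j _ => wt_smooth j

lemma dn_smooth : ContDiff ℝ ∞ (dn : Mat n → ℝ) :=
  sum_wt_smooth.add (Real.smoothTransition.contDiff.comp (contDiff_const.sub sum_wt_smooth))

lemma dn_pos (M : Mat n) : 0 < dn M := by
  unfold dn
  have h1 : 0 ≤ ∑ j, wt j M := Finset.sum_nonneg fun j _ => wt_nonneg j M
  rcases h1.eq_or_lt with h | h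
  · rw [← h]
    norm_num [Real.smoothTransition.one_of_one_le]
  · exact add_pos_of_pos_of_nonneg h (Real.smoothTransition.nonneg _)

lemma one_le_sum {P : Mat n} (hP : P ∈ CP n) : 1 ≤ ∑ j, wt j P := by
  obtain ⟨j, hj⟩ := exists_col hP
  have h1 : wt j P = 1 := by
    apply Real.smoothTransition.one_of_one_le
    have h2 : (0:ℝ) < (n : ℝ) + 1 := by positivity
    have h3 : 1 ≤ ((n : ℝ) + 1) * ‖col j P‖ ^ 2 := by
      rw [div_le_iff₀ h2] at hj
      linarith
    linarith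
  rw [← h1]
  exact Finset.single_le_sum (fun j _ => wt_nonneg j P) (Finset.mem_univ j)

lemma dn_eq {P : Mat n} (hP : P ∈ CP n) : dn P = ∑ j, wt j P := by
  unfold dn
  rw [Real.smoothTransition.zero_of_nonpos (by linarith [one_le_sum hP]), add_zero]

/-- the map of matrices defined by a homogeneous map -/
def ext (g : V n → V n) (M : Mat n) : Mat n := (dn M)⁻¹ • ∑ j, wt j M • line (g (col j M))

lemma ext_line {g : V n → V n} (hg : ∀ (c : ℂ) v, g (c • v) = c • g v) {v : V n} (hv : v ≠ 0) :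
    ext g (line v) = line (g v) := by
  have hP := line_mem hv
  have h1 : ∀ j, wt j (line v) • line (g (col j (line v))) = wt j (line v) • line (g v) := by
    intro j
    by_cases h : wt j (line v) = 0
    · rw [h, zero_smul, zero_smul]
    · have h2 := col_ne_of_wt h
      rw [col_line] at h2 ⊢
      have h3 : star (v j) / ((‖v‖ ^ 2 : ℝ) : ℂ) ≠ 0 := fun h3 => h2 (by rw [h3, zero_smul])
      rw [hg, line_smul _ h3]
  unfold ext
  rw [Finset.sum_congr rfl fun j _ => h1 j, ← Finset.sum_smul, ← dn_eq hP, smul_smul,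
    inv_mul_cancel₀ (dn_pos _).ne', one_smul]

lemma ext_smooth {Φ : ℝ → V n → V n} (hs : ContDiffOn ℝ ∞ (uncurry Φ) (univ ×ˢ {0}ᶜ))
    (h0 : ∀ t v, v ≠ 0 → Φ t v ≠ 0) :
    ContDiff ℝ ∞ fun p : ℝ × Mat n => ext (Φ p.1) p.2 := by
  have h1 : ∀ j : Fin (n + 1), ContDiff ℝ ∞ fun p : ℝ × Mat n =>
      wt j p.2 • line (Φ p.1 (col j p.2)) := by
    intro j
    rw [contDiff_iff_contDiffAt]
    rintro ⟨t, M⟩
    by_cases h : col j M = 0
    · have h2 : (fun p : ℝ × Mat n => wt j p.2 • line (Φ p.1 (col j p.2))) =ᶠ[𝓝 (t, M)]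
          fun _ => 0 := by
        have h3 : ∀ᶠ p : ℝ × Mat n in 𝓝 (t, M), wt j p.2 = 0 :=
          (continuous_snd.continuousAt (x := (t, M))).eventually (wt_near h)
        filter_upwards [h3] with p hp
        rw [hp, zero_smul]
      exact contDiffAt_const.congr_of_eventuallyEq h2
    · have h2 : ContDiffAt ℝ ∞ (fun p : ℝ × Mat n => (p.1, col j p.2)) (t, M) :=
        contDiffAt_fst.prodMk ((col_smooth j).comp contDiff_snd).contDiffAt
      have h3 : ContDiffAt ℝ ∞ (uncurry Φ) (t, col j M) :=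
        hs.contDiffAt ((isOpen_univ.prod isOpen_compl_singleton).mem_nhds ⟨mem_univ _, h⟩)
      have h4 : ContDiffAt ℝ ∞ (fun p : ℝ × Mat n => Φ p.1 (col j p.2)) (t, M) :=
        ContDiffAt.comp (g := uncurry Φ) (f := fun p : ℝ × Mat n => (p.1, col j p.2)) (t, M) h3 h2
      have h5 : ContDiffAt ℝ ∞ (fun p : ℝ × Mat n => line (Φ p.1 (col j p.2))) (t, M) :=
        ContDiffAt.comp (g := line) (f := fun p : ℝ × Mat n => Φ p.1 (col j p.2)) (t, M)
          (line_smooth (h0 t _ h)) h4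
      exact ((wt_smooth j).comp contDiff_snd).contDiffAt.smul h5
  have h2 : ContDiff ℝ ∞ fun p : ℝ × Mat n => (dn p.2)⁻¹ :=
    (dn_smooth.comp contDiff_snd).inv fun p => (dn_pos _).ne'
  exact h2.smul (ContDiff.sum fun j _ => h1 j)

/-! ### the isotopy -/

/-- unit complex numbers as isometries -/
def rot (n : ℕ) (μ : ℂ) (hμ : ‖μ‖ = 1) : V n ≃ₗᵢ[ℝ] V n where
  toLinearEquiv := (LinearEquiv.smulOfNeZero ℂ (V n) μ
    (norm_ne_zero_iff.1 (by rw [hμ]; norm_num))).restrictScalars ℝ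
  norm_map' v := by
    show ‖μ • v‖ = ‖v‖
    rw [norm_smul, hμ, one_mul]

/-- the group of unit complex numbers -/
def U1 (n : ℕ) : Set (V n ≃ₗᵢ[ℝ] V n) := {R | ∃ (μ : ℂ) (hμ : ‖μ‖ = 1), R = rot n μ hμ}

lemma hom_of_HD {f : V n → V n} (h : HD (U1 n) f) (c : ℂ) (v : V n) : f (c • v) = c • f v := by
  by_cases hc : c = 0
  · rw [hc, zero_smul, zero_smul, h.zero]
  · have hcn : (0:ℝ) < ‖c‖ := norm_pos_iff.2 hc
    have hu : ‖c / (‖c‖ : ℂ)‖ = 1 := by
      rw [norm_div, Complex.norm_real, norm_norm, div_self hcn.ne']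
    have h1 := h.equi (rot n _ hu) ⟨_, hu, rfl⟩ v
    have h2 : f ((c / (‖c‖ : ℂ)) • v) = (c / (‖c‖ : ℂ)) • f v := h1
    have h3 : ∀ w : V n, c • w = ‖c‖ • ((c / (‖c‖ : ℂ)) • w) := by
      intro w
      rw [← Complex.coe_smul, smul_smul]
      congr 1
      have : (‖c‖ : ℂ) ≠ 0 := by exact_mod_cast hcn.ne'
      field_simp
    rw [h3 v, h.hom _ hcn.le, h2, ← h3]

/-- **the isotopy of the projective space** defined by a path of homogeneous maps -/
theorem proj_isotopy {φ : Mat n → Mat n} {F : V n → V n}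
    (hφ : ∀ v, v ≠ 0 → φ (line v) = line (F v)) (hI : Iso (U1 n) (fun v => v) F) :
    ∃ K : ℝ × Mat n → Mat n, ContDiff ℝ ∞ K ∧ (∀ t : ℝ, ∀ P ∈ CP n, K (t, P) ∈ CP n) ∧
      (∀ P ∈ CP n, K (0, P) = P) ∧ (∀ P ∈ CP n, K (1, P) = φ P) ∧
      ∀ t : ℝ, ∃ L : Mat n → Mat n, ContDiff ℝ ∞ L ∧
        ∀ P ∈ CP n, L P ∈ CP n ∧ L (K (t, P)) = P ∧ K (t, L P) = P := by
  obtain ⟨Φ, hs, hH, h0, h1⟩ := hI
  have hrank : 1 < Module.rank ℝ (V n) := by
    rw [← Module.finrank_eq_rank, finrank_real_of_complex, finrank_euclideanSpace_fin]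
    have : 1 < 2 * (n + 1) := by omega
    exact_mod_cast this
  have hbij : ∀ t, Bijective (Φ t) := by
    intro t
    rcases le_total t 0 with ht | ht
    · rw [h0 t ht]
      exact bijective_id
    rcases le_total 1 t with ht' | ht'
    · rw [h1 t ht', ← h1 1 le_rfl]
      exact Iso.bij hH hs (h0 0 le_rfl) hrank ⟨zero_le_one, le_rfl⟩
    · exact Iso.bij hH hs (h0 0 le_rfl) hrank ⟨ht, ht'⟩
  have hhom : ∀ t (c : ℂ) v, Φ t (c • v) = c • Φ t v := fun t c v => hom_of_HD (hH t) c v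
  have hne : ∀ t v, v ≠ 0 → Φ t v ≠ 0 := fun t v hv => (hH t).ne_zero hv
  refine ⟨fun p => ext (Φ p.1) p.2, ext_smooth hs hne, ?_, ?_, ?_, ?_⟩
  · intro t P hP
    obtain ⟨v, hv, rfl⟩ := exists_line hP
    show ext (Φ t) (line v) ∈ CP n
    rw [ext_line (hhom t) hv]
    exact line_mem (hne t v hv)
  · intro P hP
    obtain ⟨v, hv, rfl⟩ := exists_line hP
    show ext (Φ 0) (line v) = line v
    rw [ext_line (hhom 0) hv, h0 0 le_rfl]
  · intro P hP
    obtain ⟨v, hv, rfl⟩ := exists_line hP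
    show ext (Φ 1) (line v) = φ (line v)
    rw [ext_line (hhom 1) hv, h1 1 le_rfl, hφ v hv]
  · intro t
    have hst : ContDiffOn ℝ ∞ (Φ t) {0}ᶜ := by
      have h2 : ContDiffOn ℝ ∞ (fun x : V n => uncurry Φ (t, x)) {0}ᶜ :=
        hs.comp (contDiff_const.prodMk contDiff_id).contDiffOn fun x hx => ⟨mem_univ _, hx⟩
      exact h2
    obtain ⟨g, hgf, hfg, hgs, hgH⟩ := exists_inverse (hH t) hst (hbij t)
    have hgs' : ContDiffOn ℝ ∞ (uncurry fun (_ : ℝ) => g) (univ ×ˢ {0}ᶜ) :=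
      hgs.comp contDiff_snd.contDiffOn fun p hp => hp.2
    have hgne : ∀ v, v ≠ 0 → g v ≠ 0 := fun v hv => hgH.ne_zero hv
    have hsm := ext_smooth hgs' fun _ v hv => hgne v hv
    refine ⟨ext g, ?_, ?_⟩
    · have h9 : ContDiff ℝ ∞ fun M : Mat n => ((0:ℝ), M) := contDiff_const.prodMk contDiff_id
      exact ContDiff.comp (g := fun p : ℝ × Mat n => ext g p.2) (f := fun M : Mat n => ((0:ℝ), M))
        hsm h9
    · intro P hP
      obtain ⟨v, hv, rfl⟩ := exists_line hP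
      refine ⟨?_, ?_, ?_⟩
      · rw [ext_line (hom_of_HD hgH) hv]
        exact line_mem (hgne v hv)
      · show ext g (ext (Φ t) (line v)) = line v
        rw [ext_line (hhom t) hv, ext_line (hom_of_HD hgH) (hne t v hv), hgf]
      · show ext (Φ t) (ext g (line v)) = line v
        rw [ext_line (hom_of_HD hgH) hv, ext_line (hhom t) (hgne v hv), hfg]

/-- a smooth lift of a diffeomorphism is a local diffeomorphism -/
theorem lift_der {φ ψ : Mat n → Mat n} (hψs : ContDiff ℝ ∞ ψ)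
    (hψφ : ∀ P ∈ CP n, ψ (φ P) = P) {F : V n → V n}
    (hhom : ∀ (c : ℂ) v, F (c • v) = c • F v) (hFs : ContDiffOn ℝ ∞ F {0}ᶜ)
    (hF0 : ∀ v, v ≠ 0 → F v ≠ 0) (hφF : ∀ v, v ≠ 0 → φ (line v) = line (F v))
    {v : V n} (hv : v ≠ 0) : ∃ A : V n ≃L[ℝ] V n, HasFDerivAt F (A : V n →L[ℝ] V n) v := by
  -- apply a matrix to `v`
  let ap : Mat n →ₗ[ℝ] V n :=
    { toFun := fun M => WithLp.toLp 2 fun i => ∑ j, M i j * v j
      map_add' := fun M N => by
        ext i
        show ∑ j, (M i j + N i j) * v j = ∑ j, M i j * v j + ∑ j, N i j * v j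
        rw [← Finset.sum_add_distrib]
        exact Finset.sum_congr rfl fun j _ => add_mul _ _ _
      map_smul' := fun c M => by
        ext i
        show ∑ j, (c • M i j) * v j = c • ∑ j, M i j * v j
        rw [Finset.smul_sum]
        exact Finset.sum_congr rfl fun j _ => smul_mul_assoc _ _ _ }
  have hap : ContDiff ℝ ∞ (ap : Mat n → V n) := (LinearMap.toContinuousLinearMap ap).contDiff
  have hapl : ∀ u : V n, ap (line u) = ((∑ j, star (u j) * v j) / ((‖u‖ ^ 2 : ℝ) : ℂ)) • u := by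
    intro u
    ext i
    show ∑ j, u i * star (u j) / ((‖u‖ ^ 2 : ℝ) : ℂ) * v j =
      ((∑ j, star (u j) * v j) / ((‖u‖ ^ 2 : ℝ) : ℂ)) * u i
    rw [Finset.sum_div, Finset.sum_mul]
    exact Finset.sum_congr rfl fun j _ => by ring
  let y : V n → V n := fun x => ap (ψ (line x))
  let k : V n → ℂ := fun x => (∑ j, star (x j) * F (y x) j) / ((‖x‖ ^ 2 : ℝ) : ℂ)
  let Λ : V n → V n := fun x => (k x)⁻¹ • y x
  let c : V n → ℂ := fun u => (∑ j, star (u j) * v j) / ((‖u‖ ^ 2 : ℝ) : ℂ)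
  have hy : ∀ u, u ≠ 0 → y (F u) = c u • u := by
    intro u hu
    show ap (ψ (line (F u))) = _
    rw [← hφF u hu, hψφ _ (line_mem hu), hapl]
  have hk : ∀ u, u ≠ 0 → k (F u) = c u := by
    intro u hu
    show (∑ j, star (F u j) * F (y (F u)) j) / ((‖F u‖ ^ 2 : ℝ) : ℂ) = c u
    rw [hy u hu, hhom]
    have h1 : ∀ j, star (F u j) * (c u • F u) j = c u * (star (F u j) * F u j) := by
      intro j
      show star (F u j) * (c u * F u j) = _
      ring
    rw [Finset.sum_congr rfl fun j _ => h1 j, ← Finset.mul_sum, sum_normSq,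
      mul_div_cancel_right₀ _ (normSq_ne (hF0 u hu))]
  have hcv : c v = 1 := by
    show (∑ j, star (v j) * v j) / ((‖v‖ ^ 2 : ℝ) : ℂ) = 1
    rw [sum_normSq, div_self (normSq_ne hv)]
  have hyv : y (F v) = v := by rw [hy v hv, hcv, one_smul]
  have hkv : k (F v) = 1 := by rw [hk v hv, hcv]
  have hcc : ContinuousAt c v := by
    have h1 : Continuous fun u : V n => ∑ j, star (u j) * v j :=
      continuous_finset_sum _ fun j _ => ((continuous_star.comp
        (coord_smooth j).continuous).mul continuous_const)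
    have h2 : Continuous fun u : V n => ((‖u‖ ^ 2 : ℝ) : ℂ) :=
      Complex.continuous_ofReal.comp (continuous_norm.pow 2)
    exact h1.continuousAt.div h2.continuousAt (normSq_ne hv)
  have hΛ : (fun u => Λ (F u)) =ᶠ[𝓝 v] fun u => u := by
    have h1 : ∀ᶠ u in 𝓝 v, c u ≠ 0 := hcc.eventually_ne (by rw [hcv]; norm_num)
    filter_upwards [h1, isOpen_compl_singleton.mem_nhds hv] with u hu hu0
    show (k (F u))⁻¹ • y (F u) = u
    rw [hk u hu0, hy u hu0, smul_smul, inv_mul_cancel₀ hu, one_smul]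
  have hys : ContDiffAt ℝ ∞ y (F v) :=
    hap.contDiffAt.comp (F v) (hψs.contDiffAt.comp (F v) (line_smooth (hF0 v hv)))
  have hFys : ContDiffAt ℝ ∞ (fun x => F (y x)) (F v) := by
    refine ContDiffAt.comp (g := F) (f := y) (F v) ?_ hys
    rw [hyv]
    exact hFs.contDiffAt (isOpen_compl_singleton.mem_nhds hv)
  have hks : ContDiffAt ℝ ∞ k (F v) := by
    have h3 : ContDiffAt ℝ ∞ (fun v : V n => ((‖v‖ ^ 2 : ℝ) : ℂ)) (F v) :=
      (Complex.ofRealCLM.contDiff.comp (contDiff_norm_sq ℝ)).contDiffAt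
    have h4 : ContDiffAt ℝ ∞ (fun x : V n => ∑ j, star (x j) * F (y x) j) (F v) := by
      refine ContDiffAt.sum fun j _ => ContDiffAt.mul ?_ ?_
      · exact (Complex.conjCLE.contDiff.comp (coord_smooth j)).contDiffAt
      · exact ContDiffAt.comp (g := fun u : V n => u j) (f := fun x => F (y x)) (F v)
          (coord_smooth j).contDiffAt hFys
    exact cdiv_smooth h4 h3 (normSq_ne (hF0 v hv))
  have hΛs : ContDiffAt ℝ ∞ Λ (F v) := (hks.inv (by rw [hkv]; norm_num)).smul hys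
  have hFd : HasFDerivAt F (fderiv ℝ F v) v :=
    ((hFs.contDiffAt (isOpen_compl_singleton.mem_nhds hv)).differentiableAt (by simp)).hasFDerivAt
  have hΛd : HasFDerivAt Λ (fderiv ℝ Λ (F v)) (F v) :=
    (hΛs.differentiableAt (by simp)).hasFDerivAt
  have hcomp := hΛd.comp v hFd
  have hid : HasFDerivAt (fun u => Λ (F u)) (ContinuousLinearMap.id ℝ (V n)) v :=
    (hasFDerivAt_id v).congr_of_eventuallyEq hΛ
  have he := hcomp.unique hid
  have hinj : Injective (fderiv ℝ F v) := by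
    intro a b hab
    have h1 := DFunLike.congr_fun he a
    have h2 := DFunLike.congr_fun he b
    rw [ContinuousLinearMap.comp_apply] at h1 h2
    rw [hab] at h1
    exact h1.symm.trans h2
  have hsurj : Surjective (fderiv ℝ F v) :=
    (LinearMap.injective_iff_surjective (f := (fderiv ℝ F v : V n →ₗ[ℝ] V n))).1 hinj
  refine ⟨ContinuousLinearEquiv.ofBijective (fderiv ℝ F v) (LinearMap.ker_eq_bot.2 hinj)
    (LinearMap.range_eq_top.2 hsurj), ?_⟩
  have h3 : ((ContinuousLinearEquiv.ofBijective (fderiv ℝ F v) (LinearMap.ker_eq_bot.2 hinj)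
    (LinearMap.range_eq_top.2 hsurj) : V n ≃L[ℝ] V n) : V n →L[ℝ] V n) = fderiv ℝ F v :=
    ContinuousLinearMap.ext fun x => rfl
  rw [h3]
  exact hFd

end Pool.Agent.Q196.NP
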