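import Pool.Agent.Q196.NP.Bij

/-!
# Homogeneous local diffeomorphisms and diffeomorphisms of the sphere
-/

set_option autoImplicit false

open Set Filter Topology Metric Function Module
open scoped ContDiff Manifold

noncomputable section

namespace Pool.Agent.Q196.NP

/-- Euclidean space -/
abbrev Eu (n : ℕ) : Type := EuclideanSpace ℝ (Fin n)

instance factEu (n : ℕ) : Fact (finrank ℝ (Eu (n + 1)) = n + 1) := ⟨finrank_euclideanSpace_fin⟩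

/-- the unit sphere of dimension `n` -/
abbrev Sn (n : ℕ) : Type := sphere (0 : Eu (n + 1)) 1

variable {n : ℕ}

lemma Sn.norm (x : Sn n) : ‖(x : Eu (n + 1))‖ = 1 := mem_sphere_zero_iff_norm.1 x.2

lemma Sn.ne_zero (x : Sn n) : (x : Eu (n + 1)) ≠ 0 := by
  intro h
  have := Sn.norm x
  rw [h, norm_zero] at this
  exact zero_ne_one this

/-- the map of the sphere defined by a map which does not vanish on it -/
def dir (f : Eu (n + 1) → Eu (n + 1)) (hf : ∀ x : Eu (n + 1), x ≠ 0 → f x ≠ 0) (x : Sn n) : Sn n :=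
  ⟨‖f x‖⁻¹ • f x, by rw [mem_sphere_zero_iff_norm]; exact unit_of (hf x x.ne_zero)⟩

/-- joint smoothness -/
theorem dir_smooth {Φ : ℝ → Eu (n + 1) → Eu (n + 1)}
    (hs : ContDiffOn ℝ ∞ (uncurry Φ) (univ ×ˢ {0}ᶜ))
    (hne : ∀ t (x : Eu (n + 1)), x ≠ 0 → Φ t x ≠ 0) :
    ContMDiff (𝓘(ℝ, ℝ).prod (𝓡 n)) (𝓡 n) ∞ (fun p : ℝ × Sn n => dir (Φ p.1) (hne p.1) p.2) := by
  have h1 : ContMDiff (𝓘(ℝ, ℝ).prod (𝓡 n)) 𝓘(ℝ, Eu (n + 1)) ∞
      (fun p : ℝ × Sn n => ‖Φ p.1 p.2‖⁻¹ • Φ p.1 (p.2 : Eu (n + 1))) := by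
    have h2 : ContMDiff (𝓘(ℝ, ℝ).prod (𝓡 n)) 𝓘(ℝ, ℝ × Eu (n + 1)) ∞
        (fun p : ℝ × Sn n => ((p.1, (p.2 : Eu (n + 1))) : ℝ × Eu (n + 1))) :=
      contMDiff_fst.prodMk_space (contMDiff_coe_sphere.comp contMDiff_snd)
    intro p
    have h3 : ContDiffAt ℝ ∞ (fun q : ℝ × Eu (n + 1) => ‖Φ q.1 q.2‖⁻¹ • Φ q.1 q.2)
        (p.1, (p.2 : Eu (n + 1))) := by
      have ho : IsOpen ((univ : Set ℝ) ×ˢ ({0}ᶜ : Set (Eu (n + 1)))) :=
        isOpen_univ.prod isOpen_compl_singleton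
      have h4 : ContDiffAt ℝ ∞ (uncurry Φ) (p.1, (p.2 : Eu (n + 1))) :=
        hs.contDiffAt (ho.mem_nhds ⟨mem_univ _, p.2.ne_zero⟩)
      have h5 : uncurry Φ (p.1, (p.2 : Eu (n + 1))) ≠ 0 := hne _ _ p.2.ne_zero
      exact ((h4.norm ℝ h5).inv (norm_ne_zero_iff.2 h5)).smul h4
    exact ContMDiffAt.comp (I' := 𝓘(ℝ, ℝ × Eu (n + 1)))
      (g := fun q : ℝ × Eu (n + 1) => ‖Φ q.1 q.2‖⁻¹ • Φ q.1 q.2)
      (f := fun p : ℝ × Sn n => ((p.1, (p.2 : Eu (n + 1))) : ℝ × Eu (n + 1))) p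
      h3.contMDiffAt (h2 p)
  exact ContMDiff.codRestrict_sphere h1 _

theorem dir_smooth' {f : Eu (n + 1) → Eu (n + 1)} (hs : ContDiffOn ℝ ∞ f {0}ᶜ)
    (hne : ∀ x : Eu (n + 1), x ≠ 0 → f x ≠ 0) :
    ContMDiff (𝓡 n) (𝓡 n) ∞ (dir f hne) := by
  have h1 : ContMDiff (𝓡 n) 𝓘(ℝ, Eu (n + 1)) ∞
      (fun p : Sn n => ‖f p‖⁻¹ • f (p : Eu (n + 1))) := by
    have h2 : ContMDiff (𝓡 n) 𝓘(ℝ, Eu (n + 1)) ∞ (fun p : Sn n => (p : Eu (n + 1))) :=
      contMDiff_coe_sphere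
    intro p
    have h3 : ContDiffAt ℝ ∞ (fun q : Eu (n + 1) => ‖f q‖⁻¹ • f q) (p : Eu (n + 1)) := by
      have h4 : ContDiffAt ℝ ∞ f (p : Eu (n + 1)) :=
        hs.contDiffAt (isOpen_compl_singleton.mem_nhds p.ne_zero)
      have h5 : f (p : Eu (n + 1)) ≠ 0 := hne _ p.ne_zero
      exact ((h4.norm ℝ h5).inv (norm_ne_zero_iff.2 h5)).smul h4
    exact ContMDiffAt.comp (I' := 𝓘(ℝ, Eu (n + 1))) (g := fun q : Eu (n + 1) => ‖f q‖⁻¹ • f q)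
      (f := fun p : Sn n => (p : Eu (n + 1))) p h3.contMDiffAt (h2 p)
  exact ContMDiff.codRestrict_sphere h1 _

/-- a map of the sphere in the ambient space, extended homogeneously -/
theorem lift_smooth {ψ : Sn n → Sn n} (hψ : ContMDiff (𝓡 n) (𝓡 n) ∞ ψ) :
    ∃ g : Eu (n + 1) → Eu (n + 1), ContDiffOn ℝ ∞ g {0}ᶜ ∧ (∀ x : Sn n, g x = ψ x) ∧
      ∀ r : ℝ, 0 < r → ∀ v, g (r • v) = g v := by
  let U : TopologicalSpace.Opens (Eu (n + 1)) := ⟨{0}ᶜ, isOpen_compl_singleton⟩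
  have hU : ∀ x : U, (x : Eu (n + 1)) ≠ 0 := fun x => x.2
  -- the radial projection
  have h1 : ContMDiff 𝓘(ℝ, Eu (n + 1)) 𝓘(ℝ, Eu (n + 1)) ∞
      (fun x : U => ‖(x : Eu (n + 1))‖⁻¹ • (x : Eu (n + 1))) := by
    intro x
    have h2 : ContDiffAt ℝ ∞ (fun x : Eu (n + 1) => ‖x‖⁻¹ • x) (x : Eu (n + 1)) :=
      ((contDiffAt_norm ℝ (hU x)).inv (norm_ne_zero_iff.2 (hU x))).smul contDiffAt_id
    exact ContMDiffAt.comp (I' := 𝓘(ℝ, Eu (n + 1))) (g := fun x : Eu (n + 1) => ‖x‖⁻¹ • x)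
      (f := fun x : U => (x : Eu (n + 1))) x h2.contMDiffAt contMDiff_subtype_val.contMDiffAt
  have h3 : ∀ x : U, ‖(x : Eu (n + 1))‖⁻¹ • (x : Eu (n + 1)) ∈ sphere (0 : Eu (n + 1)) 1 :=
    fun x => by rw [mem_sphere_zero_iff_norm]; exact unit_of (hU x)
  have h4 := ContMDiff.codRestrict_sphere (n := n) h1 h3
  have h5 : ContMDiff 𝓘(ℝ, Eu (n + 1)) 𝓘(ℝ, Eu (n + 1)) ∞
      (fun x : U => ((ψ (Set.codRestrict _ _ h3 x) : Sn n) : Eu (n + 1))) :=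
    contMDiff_coe_sphere.comp (hψ.comp h4)
  classical
  let g : Eu (n + 1) → Eu (n + 1) := fun x =>
    if h : x = 0 then 0 else (ψ ⟨‖x‖⁻¹ • x, by rw [mem_sphere_zero_iff_norm]; exact unit_of h⟩ :
      Eu (n + 1))
  have hg : ∀ x : U, g x = ((ψ (Set.codRestrict _ _ h3 x) : Sn n) : Eu (n + 1)) := by
    intro x
    show (if h : (x : Eu (n + 1)) = 0 then 0 else _) = _
    rw [dif_neg (hU x)]
    rfl
  refine ⟨g, ?_, ?_, ?_⟩
  · intro x hx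
    have h6 : ContMDiffAt 𝓘(ℝ, Eu (n + 1)) 𝓘(ℝ, Eu (n + 1)) ∞ (fun x : U => g x) ⟨x, hx⟩ := by
      have h7 : (fun x : U => g x) = fun x : U => ((ψ (Set.codRestrict _ _ h3 x) : Sn n) : Eu (n + 1)) :=
        funext hg
      rw [h7]
      exact h5 _
    have h8 := contMDiffAt_subtype_iff.1 h6
    exact (contMDiffAt_iff_contDiffAt.1 h8).contDiffWithinAt
  · intro x
    have h9 := hg ⟨x, x.ne_zero⟩
    refine h9.trans ?_
    congr 2
    apply Subtype.ext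
    show ‖(x : Eu (n + 1))‖⁻¹ • (x : Eu (n + 1)) = x
    rw [Sn.norm, inv_one, one_smul]
  · intro r hr v
    by_cases hv : v = 0
    · rw [hv, smul_zero]
    · have hrv : r • v ≠ 0 := smul_ne_zero hr.ne' hv
      show (if h : r • v = 0 then 0 else _) = (if h : v = 0 then 0 else _)
      rw [dif_neg hrv, dif_neg hv]
      congr 2
      apply Subtype.ext
      show ‖r • v‖⁻¹ • r • v = ‖v‖⁻¹ • v
      rw [norm_smul, Real.norm_of_nonneg hr.le, smul_smul, mul_inv, mul_comm r⁻¹, mul_assoc,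
        inv_mul_cancel₀ hr.ne', mul_one]

/-- a smooth homogeneous map inducing a diffeomorphism of the sphere is a local diffeomorphism -/
theorem sphere_der {φ : Diffeomorph (𝓡 n) (𝓡 n) (Sn n) (Sn n) ∞} {F : Eu (n + 1) → Eu (n + 1)}
    (hom : ∀ r : ℝ, 0 ≤ r → ∀ v, F (r • v) = r • F v) (hs : ContDiffOn ℝ ∞ F {0}ᶜ)
    (hF : ∀ x : Sn n, ∃ r : ℝ, 0 < r ∧ F x = r • (φ x : Eu (n + 1)))
    {v : Eu (n + 1)} (hv : v ≠ 0) :
    ∃ A : Eu (n + 1) ≃L[ℝ] Eu (n + 1), HasFDerivAt F (A : Eu (n + 1) →L[ℝ] Eu (n + 1)) v := by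
  obtain ⟨g, hgs, hg, hgr⟩ := lift_smooth (ψ := φ.symm) φ.symm.contMDiff
  have hF0 : ∀ x : Eu (n + 1), x ≠ 0 → F x ≠ 0 := by
    intro x hx
    have hxp : 0 < ‖x‖ := norm_pos_iff.2 hx
    obtain ⟨r, hr, h⟩ := hF ⟨‖x‖⁻¹ • x, by rw [mem_sphere_zero_iff_norm]; exact unit_of hx⟩
    have h1 : F (‖x‖⁻¹ • x) = ‖x‖⁻¹ • F x := hom _ (inv_nonneg.2 hxp.le) x
    intro h0
    have h2 : F (‖x‖⁻¹ • x) ≠ 0 := by
      have h3 : F (‖x‖⁻¹ • x) = r • _ := h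
      rw [h3]
      exact smul_ne_zero hr.ne' (φ _).ne_zero
    apply h2
    rw [h1, h0, smul_zero]
  -- `g (F x)` is the direction of `x`
  have hgF : ∀ x : Eu (n + 1), x ≠ 0 → g (F x) = ‖x‖⁻¹ • x := by
    intro x hx
    have hxp : 0 < ‖x‖ := norm_pos_iff.2 hx
    obtain ⟨r, hr, h⟩ := hF ⟨‖x‖⁻¹ • x, by rw [mem_sphere_zero_iff_norm]; exact unit_of hx⟩
    have h1 : F (‖x‖⁻¹ • x) = ‖x‖⁻¹ • F x := hom _ (inv_nonneg.2 hxp.le) x
    have h2 : F x = (‖x‖ * r) • ((φ ⟨‖x‖⁻¹ • x, by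
        rw [mem_sphere_zero_iff_norm]; exact unit_of hx⟩ : Sn n) : Eu (n + 1)) := by
      rw [mul_smul, ← h]
      show F x = ‖x‖ • F (‖x‖⁻¹ • x)
      rw [h1, smul_smul, mul_inv_cancel₀ hxp.ne', one_smul]
    rw [h2, hgr _ (by positivity), hg, φ.symm_apply_apply]
  let m : Eu (n + 1) → ℝ := fun y => ‖y‖ * ‖F (g y)‖⁻¹
  let Λ : Eu (n + 1) → Eu (n + 1) := fun y => m y • g y
  have hΛ : ∀ x : Eu (n + 1), x ≠ 0 → Λ (F x) = x := by
    intro x hx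
    have hxp : 0 < ‖x‖ := norm_pos_iff.2 hx
    have hFp : 0 < ‖F x‖ := norm_pos_iff.2 (hF0 x hx)
    show (‖F x‖ * ‖F (g (F x))‖⁻¹) • g (F x) = x
    rw [hgF x hx, hom _ (inv_nonneg.2 hxp.le), norm_smul, norm_inv, norm_norm, mul_inv, inv_inv,
      smul_smul]
    have : ‖F x‖ * (‖x‖ * ‖F x‖⁻¹) * ‖x‖⁻¹ = 1 := by field_simp
    rw [this, one_smul]
  have hFv : F v ≠ 0 := hF0 v hv
  have hgv : g (F v) ≠ 0 := by
    rw [hgF v hv]
    exact smul_ne_zero (inv_ne_zero (norm_ne_zero_iff.2 hv)) hv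
  have hga : ContDiffAt ℝ ∞ g (F v) := hgs.contDiffAt (isOpen_compl_singleton.mem_nhds hFv)
  have hFga : ContDiffAt ℝ ∞ (fun y => F (g y)) (F v) :=
    ContDiffAt.comp (g := F) (f := g) (F v)
      (hs.contDiffAt (isOpen_compl_singleton.mem_nhds hgv)) hga
  have hFg0 : F (g (F v)) ≠ 0 := hF0 _ hgv
  have hΛs : ContDiffAt ℝ ∞ Λ (F v) :=
    (((contDiffAt_norm ℝ hFv).mul ((hFga.norm ℝ hFg0).inv (norm_ne_zero_iff.2 hFg0)))).smul hga
  have hFd : HasFDerivAt F (fderiv ℝ F v) v :=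
    ((hs.contDiffAt (isOpen_compl_singleton.mem_nhds hv)).differentiableAt (by simp)).hasFDerivAt
  have hΛd : HasFDerivAt Λ (fderiv ℝ Λ (F v)) (F v) :=
    (hΛs.differentiableAt (by simp)).hasFDerivAt
  have hcomp := hΛd.comp v hFd
  have hid : HasFDerivAt (fun u => Λ (F u)) (ContinuousLinearMap.id ℝ (Eu (n + 1))) v := by
    refine (hasFDerivAt_id v).congr_of_eventuallyEq ?_
    filter_upwards [isOpen_compl_singleton.mem_nhds hv] with u hu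
    exact hΛ u hu
  have he := hcomp.unique hid
  have hinj : Injective (fderiv ℝ F v) := by
    intro a b hab
    have h1 := DFunLike.congr_fun he a
    have h2 := DFunLike.congr_fun he b
    rw [ContinuousLinearMap.comp_apply] at h1 h2
    rw [hab] at h1
    exact h1.symm.trans h2
  have hsurj : Surjective (fderiv ℝ F v) :=
    (LinearMap.injective_iff_surjective
      (f := (fderiv ℝ F v : Eu (n + 1) →ₗ[ℝ] Eu (n + 1)))).1 hinj
  refine ⟨ContinuousLinearEquiv.ofBijective (fderiv ℝ F v) (LinearMap.ker_eq_bot.2 hinj)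
    (LinearMap.range_eq_top.2 hsurj), ?_⟩
  have h3 : ((ContinuousLinearEquiv.ofBijective (fderiv ℝ F v) (LinearMap.ker_eq_bot.2 hinj)
    (LinearMap.range_eq_top.2 hsurj) : Eu (n + 1) ≃L[ℝ] Eu (n + 1)) :
      Eu (n + 1) →L[ℝ] Eu (n + 1)) = fderiv ℝ F v :=
    ContinuousLinearMap.ext fun x => rfl
  rw [h3]
  exact hFd

/-- the diffeomorphism of the sphere defined by a bijective homogeneous local diffeomorphism -/
theorem exists_diffeo {f : Eu (n + 1) → Eu (n + 1)} (hf : HD ∅ f) (hs : ContDiffOn ℝ ∞ f {0}ᶜ)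
    (hb : Bijective f) : ∃ D : Diffeomorph (𝓡 n) (𝓡 n) (Sn n) (Sn n) ∞,
      ∀ x, D x = dir f (fun _ hx => hf.ne_zero hx) x := by
  obtain ⟨g, hgf, hfg, hgs, hgH⟩ := exists_inverse hf hs hb
  have key : ∀ {f g : Eu (n + 1) → Eu (n + 1)} (hf : HD ∅ f) (hg : HD ∅ g), LeftInverse g f →
      ∀ x : Sn n, dir g (fun _ hx => hg.ne_zero hx) (dir f (fun _ hx => hf.ne_zero hx) x) = x := by
    intro f g hf hg hgf x
    apply Subtype.ext
    have hfx : f x ≠ 0 := hf.ne_zero x.ne_zero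
    have hp : 0 < ‖f x‖ := norm_pos_iff.2 hfx
    show ‖g (‖f x‖⁻¹ • f x)‖⁻¹ • g (‖f x‖⁻¹ • f x) = x
    rw [hg.hom _ (inv_nonneg.2 hp.le), hgf, norm_smul, norm_inv, norm_norm, Sn.norm, mul_one,
      inv_inv, smul_smul, mul_inv_cancel₀ hp.ne', one_smul]
  exact ⟨{ toFun := dir f (fun _ hx => hf.ne_zero hx)
           invFun := dir g (fun _ hx => hgH.ne_zero hx)
           left_inv := key hf hgH hgf
           right_inv := key hgH hf hfg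
           contMDiff_toFun := dir_smooth' hs (fun _ hx => hf.ne_zero hx)
           contMDiff_invFun := dir_smooth' hgs (fun _ hx => hgH.ne_zero hx) }, fun x => rfl⟩

/-- **the isotopy of the sphere** defined by a path of homogeneous maps -/
theorem sphere_isotopy (hn : 1 ≤ n) {φ : Sn n → Sn n} {F : Eu (n + 1) → Eu (n + 1)}
    (hF : ∀ x : Sn n, ∃ r : ℝ, 0 < r ∧ F x = r • (φ x : Eu (n + 1)))
    (hI : Iso ∅ (fun v => v) F) :
    ∃ K : ℝ × Sn n → Sn n, ContMDiff (𝓘(ℝ, ℝ).prod (𝓡 n)) (𝓡 n) ∞ K ∧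
      (∀ x, K (0, x) = x) ∧ (∀ x, K (1, x) = φ x) ∧
      ∀ t : ℝ, ∃ D : Diffeomorph (𝓡 n) (𝓡 n) (Sn n) (Sn n) ∞, ∀ x, D x = K (t, x) := by
  obtain ⟨Φ, hs, hH, h0, h1⟩ := hI
  have hrank : 1 < Module.rank ℝ (Eu (n + 1)) := by
    rw [← Module.finrank_eq_rank, finrank_euclideanSpace_fin]
    have : 1 < n + 1 := by omega
    exact_mod_cast this
  have hbij : ∀ t, Bijective (Φ t) := by
    intro t
    rcases le_total t 0 with ht | ht
    · rw [h0 t ht]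
      exact bijective_id
    rcases le_total 1 t with ht' | ht'
    · rw [h1 t ht', ← h1 1 le_rfl]
      exact Iso.bij hH hs (h0 0 le_rfl) hrank ⟨zero_le_one, le_rfl⟩
    · exact Iso.bij hH hs (h0 0 le_rfl) hrank ⟨ht, ht'⟩
  have hne : ∀ t (v : Eu (n + 1)), v ≠ 0 → Φ t v ≠ 0 := fun t v hv => (hH t).ne_zero hv
  refine ⟨fun p => dir (Φ p.1) (hne p.1) p.2, dir_smooth hs hne, ?_, ?_, ?_⟩
  · intro x
    apply Subtype.ext
    show ‖Φ 0 x‖⁻¹ • Φ 0 x = x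
    rw [h0 0 le_rfl, Sn.norm, inv_one, one_smul]
  · intro x
    apply Subtype.ext
    show ‖Φ 1 x‖⁻¹ • Φ 1 x = φ x
    rw [h1 1 le_rfl]
    obtain ⟨r, hr, h⟩ := hF x
    rw [h, norm_smul, Real.norm_of_nonneg hr.le, Sn.norm, mul_one, smul_smul,
      inv_mul_cancel₀ hr.ne', one_smul]
  · intro t
    have hst : ContDiffOn ℝ ∞ (Φ t) {0}ᶜ := by
      have h2 : ContDiffOn ℝ ∞ (fun x : Eu (n + 1) => uncurry Φ (t, x)) {0}ᶜ :=
        hs.comp (contDiff_const.prodMk contDiff_id).contDiffOn fun x hx => ⟨mem_univ _, hx⟩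
      exact h2
    exact exists_diffeo (hH t) hst (hbij t)

end Pool.Agent.Q196.NP
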